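import Pool.Agent.N393.C13.Stm

set_option autoImplicit false
set_option linter.unusedSectionVars false

/-!
# Project C13 (helper393), part CON2: minimal contractions without flow are 2-connected
-/

namespace Pool.Agent.N393.C13.Con

open Finset Relation Pool.Agent.TH362.TF Pool.Agent.R890.FF Pool.Agent.R140.PK

variable {V E : Type} [Fintype V] [DecidableEq V] [DecidableEq E] {s t : E → V} {S : Finset E}

/-- paths inside a set -/
theorem rtg_in {P : V → Prop} {x z : V} (h : ReflTransGen (St s t S P) x z) (hx : P x) : P z := by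
  induction h with
  | refl => exact hx
  | tail _ h2 _ => exact h2.2.2

/-- paths inside a set stay inside the component -/
theorem rtg_comp {P : V → Prop} {x z : V} (h : ReflTransGen (St s t S P) x z) :
    ReflTransGen (St s t S (fun u => ReflTransGen (St s t S P) x u)) x z := by
  induction h with
  | refl => exact ReflTransGen.refl
  | tail h1 h2 ih => exact ih.tail ⟨h2.1, h1, h1.tail h2⟩

theorem F2 (a : F) : a + a = 0 := by
  revert a
  decide

/-- conservation at one vertex follows from conservation at the other vertices -/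
theorem cons_last {φ : E → F} (v : V) (h : ∀ z, z ≠ v → Cons s t S φ z) : Cons s t S φ v := by
  have h1 : ∑ z : V, ∑ e ∈ S, ((if s e = z then φ e else 0) + (if t e = z then φ e else 0)) = 0 := by
    rw [Finset.sum_comm]
    refine Finset.sum_eq_zero fun e _ => ?_
    rw [Finset.sum_add_distrib, Finset.sum_ite_eq, Finset.sum_ite_eq]
    simp only [Finset.mem_univ, if_true]
    exact F2 _
  rw [← Finset.add_sum_erase _ _ (Finset.mem_univ v)] at h1
  have h2 : ∑ z ∈ univ.erase v, ∑ e ∈ S, ((if s e = z then φ e else 0) +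
      (if t e = z then φ e else 0)) = 0 :=
    Finset.sum_eq_zero fun z hz => h z (Finset.ne_of_mem_erase hz)
  rw [h2, add_zero] at h1
  exact h1

theorem con2 (h : Mc s t S) : Con2 (nbG s t S) := by
  classical
  intro v P x x' y y' hxx hyy hxv hyv hPx hPy
  have hxx : Nb s t S x x' := hxx
  have hyy : Nb s t S y y' := hyy
  by_contra hno
  push Not at hno
  have hno' : ∀ c d, Nb s t S c d → P c → ¬ P d → c ≠ v → d = v := hno
  set A : Finset V := univ.filter fun z => ReflTransGen (St s t S fun u => u ≠ v) x z with hA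
  have mA : ∀ z, z ∈ A ↔ ReflTransGen (St s t S fun u => u ≠ v) x z := by
    intro z
    rw [hA, mem_filter]
    exact ⟨fun h => h.2, fun h => ⟨mem_univ _, h⟩⟩
  have A1 : x ∈ A := (mA x).2 ReflTransGen.refl
  have A2 : ∀ z ∈ A, z ≠ v := fun z hz => rtg_in (P := fun u => u ≠ v) ((mA z).1 hz) hxv
  have A2' : v ∉ A := fun hv => A2 v hv rfl
  have A3 : ∀ a b e, e ∈ S → Ends s t a b e → a ∈ A → b ≠ v → b ∈ A := by
    intro a b e he hE ha hb
    exact (mA b).2 (((mA a).1 ha).tail ⟨⟨e, he, hE⟩, A2 a ha, hb⟩)
  have A4 : ∀ z ∈ A, P z := by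
    intro z hz
    rw [mA] at hz
    induction hz with
    | refl => exact hPx
    | tail h1 h2 ih =>
      rename_i a b
      obtain ⟨⟨e, he, hE⟩, ha, hb⟩ := h2
      by_cases hab : b = a
      · rw [hab]; exact ih
      · by_contra hPb
        exact hb (hno' a b ⟨hab, e, he, hE⟩ ih hPb ha)
  have A5 : y ∉ A := fun hy => hPy (A4 y hy)
  have hcomp : ReflTransGen (fun u w => ∃ e ∈ S, Ends s t u w e) x y :=
    mem_comp.1 (h.one_comp hxx hyy)
  -- a neighbour of `v` in `A`
  have hN : ∃ a ∈ A, ∃ e ∈ S, Ends s t a v e := by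
    have key : ∀ z, ReflTransGen (fun u w => ∃ e ∈ S, Ends s t u w e) x z →
        z ∈ A ∨ ∃ a ∈ A, ∃ e ∈ S, Ends s t a v e := by
      intro z hz
      induction hz with
      | refl => exact Or.inl A1
      | tail h1 h2 ih =>
        rename_i a b
        rcases ih with ih | ih
        · obtain ⟨e, he, hE⟩ := h2
          by_cases hb : b = v
          · exact Or.inr ⟨a, ih, e, he, hb ▸ hE⟩
          · exact Or.inl (A3 a b e he hE ih hb)
        · exact Or.inr ih
    exact (key y hcomp).resolve_left A5
  obtain ⟨a0, ha0, e0, he0, hE0⟩ := hN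
  -- the first flow
  have hconA : ConnS s t S (fun z => z ∈ insert v A) := by
    have h1 : ∀ z ∈ A, ReflTransGen (St s t S fun z => z ∈ insert v A) x z := by
      intro z hz
      refine St.mono ?_ (rtg_comp ((mA z).1 hz))
      intro u hu
      exact mem_insert_of_mem ((mA u).2 hu)
    refine connS_of (a := x) ?_
    intro z hz
    rw [mem_insert] at hz
    rcases hz with rfl | hz
    · exact (h1 a0 ha0).tail ⟨⟨e0, he0, hE0⟩, mem_insert_of_mem ha0, mem_insert_self _ _⟩
    · exact h1 z hz
  obtain ⟨φ1, p1, p2⟩ := h.mn (insert v A) v (mem_insert_self _ _) hconA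
    ⟨e0, he0, ends_ne hE0 (A2 a0 ha0), by
      rcases hE0 with ⟨h4, h5⟩ | ⟨h4, h5⟩
      · rw [h4, h5]; exact ⟨mem_insert_of_mem ha0, mem_insert_self _ _⟩
      · rw [h4, h5]; exact ⟨mem_insert_self _ _, mem_insert_of_mem ha0⟩⟩
  -- the second flow
  set B : Finset V := univ.filter fun z => ReflTransGen (St s t S fun u => u ∉ A) v z with hB
  have mB : ∀ z, z ∈ B ↔ ReflTransGen (St s t S fun u => u ∉ A) v z := by
    intro z
    rw [hB, mem_filter]
    exact ⟨fun h => h.2, fun h => ⟨mem_univ _, h⟩⟩
  have B1 : v ∈ B := (mB v).2 ReflTransGen.refl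
  have B2 : ∀ z ∈ B, z ∉ A := fun z hz => rtg_in (P := fun u => u ∉ A) ((mB z).1 hz) A2'
  have B3 : y ∈ B := by
    have key : ∀ z, ReflTransGen (fun u w => ∃ e ∈ S, Ends s t u w e) y z →
        ReflTransGen (St s t S fun u => u ∉ A) y z ∨
          ReflTransGen (St s t S fun u => u ∉ A) y v := by
      intro z hz
      induction hz with
      | refl => exact Or.inl ReflTransGen.refl
      | tail h1 h2 ih =>
        rename_i a b
        rcases ih with ih | ih
        · have ha : a ∉ A := rtg_in (P := fun u => u ∉ A) ih A5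
          obtain ⟨e, he, hE⟩ := h2
          by_cases hb : b ∈ A
          · right
            have hav : a = v := by
              by_contra hav
              exact ha (A3 b a e he (ends_comm' hE) hb hav)
            rw [← hav]
            exact ih
          · exact Or.inl (ih.tail ⟨⟨e, he, hE⟩, ha, hb⟩)
        · exact Or.inr ih
    have hyx : ReflTransGen (fun u w => ∃ e ∈ S, Ends s t u w e) y x :=
      rtg_symm (fun u w ⟨e, he, h⟩ => ⟨e, he, ends_comm' h⟩) hcomp
    rw [mB]
    refine rtg_symm St.symm ?_
    rcases key x hyx with h1 | h1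
    · exact absurd A1 (rtg_in (P := fun u => u ∉ A) h1 A5)
    · exact h1
  have B4 : ∃ c, c ≠ v ∧ c ∈ B ∧ ∃ e ∈ S, Ends s t v c e := by
    have key : ∀ z, ReflTransGen (St s t S fun u => u ∉ A) v z →
        z = v ∨ ∃ c, c ≠ v ∧ c ∈ B ∧ ∃ e ∈ S, Ends s t v c e := by
      intro z hz
      induction hz with
      | refl => exact Or.inl rfl
      | tail h1 h2 ih =>
        rename_i a b
        rcases ih with ih | ih
        · by_cases hb : b = v
          · exact Or.inl hb
          · right
            subst ih
            exact ⟨b, hb, (mB b).2 (h1.tail h2), h2.1⟩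
        · exact Or.inr ih
    exact (key y ((mB y).1 B3)).resolve_left hyv
  obtain ⟨c, hcv, hcB, e1, he1, hE1⟩ := B4
  have hconB : ConnS s t S (fun z => z ∈ B) := by
    refine connS_of (a := v) ?_
    intro z hz
    refine St.mono ?_ (rtg_comp ((mB z).1 hz))
    intro u hu
    exact (mB u).2 hu
  obtain ⟨φ2, q1, q2⟩ := h.mn B v B1 hconB
    ⟨e1, he1, ends_ne hE1 hcv.symm, by
      rcases hE1 with ⟨h4, h5⟩ | ⟨h4, h5⟩
      · rw [h4, h5]; exact ⟨B1, hcB⟩
      · rw [h4, h5]; exact ⟨hcB, B1⟩⟩
  -- the flow
  refine h.nz ⟨fun e => if s e ∈ A ∨ t e ∈ A then φ2 e else φ1 e, fun e he => ?_, ?_⟩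
  · by_cases h1 : s e ∈ A ∨ t e ∈ A
    · simp only [h1, if_true]; exact q1 e he
    · simp only [h1, if_false]; exact p1 e he
  · have hne : ∀ z, z ≠ v → Cons s t S (fun e => if s e ∈ A ∨ t e ∈ A then φ2 e else φ1 e) z := by
      intro z hzv
      by_cases hz : z ∈ A
      · have h1 := cons_out B1 q2 z (fun hzB => B2 z hzB hz)
        unfold Cons at h1 ⊢
        refine Eq.trans (Finset.sum_congr rfl fun e he => ?_) h1
        by_cases h3 : s e = z
        · have h4 : s e ∈ A ∨ t e ∈ A := Or.inl (h3 ▸ hz)
          simp only [h4, if_true]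
        · by_cases h5 : t e = z
          · have h4 : s e ∈ A ∨ t e ∈ A := Or.inr (h5 ▸ hz)
            simp only [h4, if_true]
          · simp only [h3, h5, if_false]
      · have hz' : z ∉ insert v A := by
          rw [mem_insert]
          exact fun h => h.elim hzv hz
        have h1 := cons_out (mem_insert_self v A) p2 z hz'
        unfold Cons at h1 ⊢
        refine Eq.trans (Finset.sum_congr rfl fun e he => ?_) h1
        by_cases h3 : s e = z
        · have h4 : ¬ (s e ∈ A ∨ t e ∈ A) := by
            rintro (h4 | h4)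
            · exact hz (h3 ▸ h4)
            · exact hz (A3 (t e) z e he (Or.inr ⟨h3, rfl⟩) h4 hzv)
          simp only [h4, if_false]
        · by_cases h5 : t e = z
          · have h4 : ¬ (s e ∈ A ∨ t e ∈ A) := by
              rintro (h4 | h4)
              · exact hz (A3 (s e) z e he (Or.inl ⟨rfl, h5⟩) h4 hzv)
              · exact hz (h5 ▸ h4)
            simp only [h4, if_false]
          · simp only [h3, h5, if_false]
    intro z
    by_cases hz : z = v
    · rw [hz]
      exact cons_last v hne
    · exact hne z hz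

/-- **CON2.** -/
theorem main : Pool.Agent.N393.C13.S_con2 := by
  intro V E _ _ _ s t S h
  exact con2 h

end Pool.Agent.N393.C13.Con
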