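import Pool.Agent.N393.C13.Stm
import Pool.Agent.R145.Cir.Comb

set_option autoImplicit false

/-!
# C13/COUNT (helper645): no five outer vertices at a circuit of length at most thirteen
-/

namespace Pool.Agent.N393.C13.Count

open Pool.Agent.R145.Cir

/-- the triples of positions with distances at least three on the circle of length `k` -/
def T (k : ℕ) : List (ℕ × ℕ × ℕ) :=
  (List.range k).flatMap fun a => (List.range (k - 8)).flatMap fun i =>
    (List.range (k - 8)).filterMap fun j =>
      bif Nat.ble (i + j + 9) k && Nat.blt (a + 6 + i + j) k then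
        some (a, a + 3 + i, a + 6 + i + j) else none

/-- the condition for crossing ears -/
def cr (k a b c d : ℕ) : Bool :=
  !(Nat.blt a b && Nat.blt b c && Nat.blt c d) ||
    (Nat.ble 4 ((b - a) + (d - c)) && Nat.ble ((b - a) + (d - c) + 4) k)

/-- the pairs of a triple -/
def prs (s : ℕ × ℕ × ℕ) : List (ℕ × ℕ) := [(s.1, s.2.1), (s.1, s.2.2), (s.2.1, s.2.2)]

/-- compatible triples -/
def ok (k : ℕ) (s t : ℕ × ℕ × ℕ) : Bool :=
  (prs s).all fun u => (prs t).all fun w =>
    !(Nat.beq u.1 w.1 && Nat.beq u.2 w.2) && (cr k u.1 w.1 u.2 w.2 && cr k w.1 u.1 w.2 u.2)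

/-- some member of the list and a family in the list of the later ones which are compatible -/
def ex {α : Type} (f : List α → Bool) (r : α → α → Bool) : List α → Bool
  | [] => false
  | a :: l => f (l.filter (r a)) || ex f r l

/-- there are `n` pairwise compatible members -/
def cliq {α : Type} (r : α → α → Bool) : ℕ → List α → Bool
  | 0 => fun _ => true
  | n + 1 => ex (cliq r n) r

theorem cliq_of {α : Type} [DecidableEq α] (r : α → α → Bool) (n : ℕ) :
    ∀ (l : List α) (S : Finset α), S.card = n → (∀ s ∈ S, s ∈ l) →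
      (∀ s ∈ S, ∀ t ∈ S, s ≠ t → r s t = true) → cliq r n l = true := by
  induction n with
  | zero => intro l S _ _ _; rfl
  | succ n ih =>
    intro l
    induction l with
    | nil =>
      intro S hS hl _
      obtain ⟨s, hs⟩ := Finset.card_pos.1 (by omega : 0 < S.card)
      exact absurd (hl s hs) (by simp)
    | cons a l ihl =>
      intro S hS hl hr
      change (cliq r n (l.filter (r a)) || ex (cliq r n) r l) = true
      rw [Bool.or_eq_true]
      by_cases ha : a ∈ S
      · left
        apply ih _ (S.erase a)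
        · rw [Finset.card_erase_of_mem ha, hS]
          rfl
        · intro s hs
          rw [Finset.mem_erase] at hs
          rw [List.mem_filter]
          refine ⟨?_, hr a ha s hs.2 (Ne.symm hs.1)⟩
          rcases List.mem_cons.1 (hl s hs.2) with h | h
          · exact absurd h hs.1
          · exact h
        · intro s hs t ht hst
          exact hr s (Finset.mem_of_mem_erase hs) t (Finset.mem_of_mem_erase ht) hst
      · right
        apply ihl S hS
        · intro s hs
          rcases List.mem_cons.1 (hl s hs) with h | h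
          · exact absurd (h ▸ hs) ha
          · exact h
        · exact hr

set_option maxRecDepth 100000 in
theorem c13 : ∀ k ∈ List.range 14, cliq (ok k) 5 (T k) = false := by decide +kernel

theorem mem_T {k a b c : ℕ} (h1 : a + 3 ≤ b) (h2 : b + 3 ≤ c) (h3 : c + 3 ≤ a + k) (h4 : c < k) :
    (a, b, c) ∈ T k := by
  unfold T
  rw [List.mem_flatMap]
  refine ⟨a, List.mem_range.2 (by omega), ?_⟩
  rw [List.mem_flatMap]
  refine ⟨b - (a + 3), List.mem_range.2 (by omega), ?_⟩
  rw [List.mem_filterMap]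
  refine ⟨c - (b + 3), List.mem_range.2 (by omega), ?_⟩
  have e1 : Nat.ble (b - (a + 3) + (c - (b + 3)) + 9) k = true := Nat.ble_eq.mpr (by omega)
  have e2 : Nat.blt (a + 6 + (b - (a + 3)) + (c - (b + 3))) k = true := Nat.blt_eq.mpr (by omega)
  rw [e1, e2]
  simp only [Bool.and_self, cond_true, Option.some.injEq, Prod.mk.injEq, true_and]
  omega

section

variable {V : Type} {G : SimpleGraph V} {K : List V}

/-- the triple `s` consists of positions of neighbours of `x` -/
def At (G : SimpleGraph V) (K : List V) (x : V) (s : ℕ × ℕ × ℕ) : Prop :=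
  ∀ u ∈ prs s, u.1 < u.2 ∧ ∃ a b, K[u.1]? = some a ∧ K[u.2]? = some b ∧ G.Adj x a ∧ G.Adj x b

theorem cr_of (h : LC G K) {x y : V} (hx : x ∉ K) (hy : y ∉ K) (hxy : x ≠ y) {u w : ℕ × ℕ}
    (hu : ∃ a b, K[u.1]? = some a ∧ K[u.2]? = some b ∧ G.Adj x a ∧ G.Adj x b)
    (hw : ∃ a b, K[w.1]? = some a ∧ K[w.2]? = some b ∧ G.Adj y a ∧ G.Adj y b) :
    cr K.length u.1 w.1 u.2 w.2 = true := by
  unfold cr
  rw [Bool.or_eq_true]
  by_cases hlt : u.1 < w.1 ∧ w.1 < u.2 ∧ u.2 < w.2
  · right
    obtain ⟨a, b, h1, h2, h3, h4⟩ := hu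
    obtain ⟨a', b', h1', h2', h3', h4'⟩ := hw
    have := h.cross h1 h1' h2 h2' hlt.1 hlt.2.1 hlt.2.2 hx hy hxy h3 h4 h3' h4'
    rw [Bool.and_eq_true]
    exact ⟨Nat.ble_eq.mpr this.1, Nat.ble_eq.mpr this.2⟩
  · left
    rw [Bool.not_eq_true', Bool.eq_false_iff]
    intro h1
    rw [Bool.and_eq_true, Bool.and_eq_true] at h1
    exact hlt ⟨Nat.blt_eq.mp h1.1.1, Nat.blt_eq.mp h1.1.2, Nat.blt_eq.mp h1.2⟩

theorem ok_of (h : LC G K) (g : Gi G) {x y : V} (hx : x ∉ K) (hy : y ∉ K) (hxy : x ≠ y)
    {s t : ℕ × ℕ × ℕ} (hs : At G K x s) (ht : At G K y t) : ok K.length s t = true := by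
  unfold ok
  rw [List.all_eq_true]
  intro u hu
  rw [List.all_eq_true]
  intro w hw
  have hu1 := hs u hu
  have hw1 := ht w hw
  rw [Bool.and_eq_true, Bool.and_eq_true]
  refine ⟨?_, cr_of h hx hy hxy hu1.2 hw1.2, cr_of h hy hx hxy.symm hw1.2 hu1.2⟩
  rw [Bool.not_eq_true', Bool.eq_false_iff]
  intro h1
  rw [Bool.and_eq_true] at h1
  have e1 : u.1 = w.1 := Nat.beq_eq.mp h1.1
  have e2 : u.2 = w.2 := Nat.beq_eq.mp h1.2
  obtain ⟨hlt, a, b, h2, h3, h4, h5⟩ := hu1
  obtain ⟨-, a', b', h2', h3', h4', h5'⟩ := hw1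
  rw [← e1, h2] at h2'
  rw [← e2, h3] at h3'
  have ea : a = a' := Option.some.inj h2'
  have eb : b = b' := Option.some.inj h3'
  subst ea eb
  have hab : a ≠ b := by
    intro hab
    subst hab
    have h6 := (List.getElem?_inj (idx_lt h2) h.ci.1.1).1 (h2.trans h3.symm)
    omega
  exact g.sq x a y b hxy hab h4 h4'.symm h5' h5.symm

/-- the sorted triple of the positions of three neighbours -/
theorem exists_at (h : LC G K) (g : Gi G) {x : V} (hx : x ∉ K) (f : Fin 3 → V)
    (hf : Function.Injective f) (hfK : ∀ j, f j ∈ K) (ha : ∀ j, G.Adj x (f j)) :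
    ∃ s ∈ T K.length, At G K x s := by
  have h3 : ∀ (a b c : ℕ) (u v w : V), K[a]? = some u → K[b]? = some v → K[c]? = some w →
      u ≠ v → v ≠ w → u ≠ w → G.Adj x u → G.Adj x v → G.Adj x w → a < b → b < c →
      ∃ s ∈ T K.length, At G K x s := by
    intro a b c u v w hu hv hw n1 n2 n3 a1 a2 a3 l1 l2
    have f1 := h.nbr_far g hu hv n1 hx a1 a2
    have f2 := h.nbr_far g hv hw n2 hx a2 a3
    have f3 := h.nbr_far g hu hw n3 hx a1 a3
    unfold far at f1 f2 f3
    refine ⟨(a, b, c), mem_T (by omega) (by omega) (by omega) (idx_lt hw), ?_⟩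
    intro r hr
    unfold prs at hr
    simp only [List.mem_cons, List.mem_nil_iff, or_false] at hr
    rcases hr with rfl | rfl | rfl
    · exact ⟨l1, u, v, hu, hv, a1, a2⟩
    · exact ⟨l1.trans l2, u, w, hu, hw, a1, a3⟩
    · exact ⟨l2, v, w, hv, hw, a2, a3⟩
  obtain ⟨a, hfa⟩ := ix (hfK 0)
  obtain ⟨b, hfb⟩ := ix (hfK 1)
  obtain ⟨c, hfc⟩ := ix (hfK 2)
  have n01 : f 0 ≠ f 1 := fun e => absurd (hf e) (by decide)
  have n02 : f 0 ≠ f 2 := fun e => absurd (hf e) (by decide)
  have n12 : f 1 ≠ f 2 := fun e => absurd (hf e) (by decide)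
  have hab : a ≠ b := fun e => n01 (by rw [e, hfb] at hfa; exact (Option.some.inj hfa).symm)
  have hac : a ≠ c := fun e => n02 (by rw [e, hfc] at hfa; exact (Option.some.inj hfa).symm)
  have hbc : b ≠ c := fun e => n12 (by rw [e, hfc] at hfb; exact (Option.some.inj hfb).symm)
  rcases lt_or_gt_of_ne hab with l1 | l1 <;> rcases lt_or_gt_of_ne hac with l2 | l2 <;>
    rcases lt_or_gt_of_ne hbc with l3 | l3
  · exact h3 a b c _ _ _ hfa hfb hfc n01 n12 n02 (ha 0) (ha 1) (ha 2) l1 l3
  · exact h3 a c b _ _ _ hfa hfc hfb n02 n12.symm n01 (ha 0) (ha 2) (ha 1) l2 l3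
  · omega
  · exact h3 c a b _ _ _ hfc hfa hfb n02.symm n01 n12.symm (ha 2) (ha 0) (ha 1) l2 l1
  · exact h3 b a c _ _ _ hfb hfa hfc n01.symm n02 n12 (ha 1) (ha 0) (ha 2) l1 l2
  · omega
  · exact h3 b c a _ _ _ hfb hfc hfa n12 n02.symm n01.symm (ha 1) (ha 2) (ha 0) l3 l2
  · exact h3 c b a _ _ _ hfc hfb hfa n12.symm n01.symm n02.symm (ha 2) (ha 1) (ha 0) l3 l1

end

/-- **C13/COUNT** -/
theorem main : Pool.Agent.N393.C13.S_count := by
  classical
  intro V G K h g hk x f hx hxK hf hfK hadj
  have h1 : ∀ i, ∃ s ∈ T K.length, At G K (x i) s := fun i =>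
    exists_at h g (hxK i) (f i) (hf i) (hfK i) (hadj i)
  choose s hs hat using h1
  have hok : ∀ i j, i ≠ j → ok K.length (s i) (s j) = true := fun i j hij =>
    ok_of h g (hxK i) (hxK j) (fun e => hij (hx e)) (hat i) (hat j)
  have hself : ∀ t : ℕ × ℕ × ℕ, ok K.length t t = false := by
    intro t
    rw [Bool.eq_false_iff]
    intro h2
    unfold ok at h2
    rw [List.all_eq_true] at h2
    have h3 := h2 (t.1, t.2.1) (by simp [prs])
    rw [List.all_eq_true] at h3
    have h4 := h3 (t.1, t.2.1) (by simp [prs])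
    rw [Bool.and_eq_true] at h4
    have h5 := h4.1
    simp at h5
  have hinj : Function.Injective s := by
    intro i j hij
    by_contra hne
    have := hok i j hne
    rw [hij, hself] at this
    exact Bool.false_ne_true this
  have hcl : cliq (ok K.length) 5 (T K.length) = true := by
    apply cliq_of (ok K.length) 5 (T K.length) (Finset.univ.image s)
    · rw [Finset.card_image_of_injective _ hinj]
      simp
    · intro t ht
      obtain ⟨i, -, rfl⟩ := Finset.mem_image.1 ht
      exact hs i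
    · intro t ht t' ht' hne
      obtain ⟨i, -, rfl⟩ := Finset.mem_image.1 ht
      obtain ⟨j, -, rfl⟩ := Finset.mem_image.1 ht'
      exact hok i j fun e => hne (by rw [e])
  have := c13 K.length (List.mem_range.2 (by omega))
  rw [this] at hcl
  exact Bool.false_ne_true hcl

end Pool.Agent.N393.C13.Count
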