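import Pool.Agent.N393.C13.Stm2

set_option autoImplicit false

/-!
# No edges outside of a longest circuit with at most thirteen vertices
-/

namespace Pool.Agent.N393.C13.Edge

open Pool.Agent.R145.Cir

variable {V : Type} {G : SimpleGraph V}

/-! ### Longest circuits as functions -/

/-- a longest circuit -/
structure Cy (G : SimpleGraph V) (n : ℕ) (c : Fin (n + 1) → V) : Prop where
  inj : Function.Injective c
  adj : ∀ i, G.Adj (c i) (c (i + 1))
  max : ∀ l, Ci G l → l.length ≤ n + 1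

/-- the hypothesis on the edges outside of longest circuits -/
def HE (G : SimpleGraph V) (n : ℕ) : Prop := ∀ c : Fin (n + 1) → V, Cy G n c → ∀ x y,
  (∀ i, c i ≠ x) → (∀ i, c i ≠ y) → G.Adj x y → ∃ i j, i ≠ j ∧ G.Adj x (c i) ∧ G.Adj x (c j)

variable {n : ℕ} {c : Fin (n + 1) → V}

theorem Cy.rot (h : Cy G n c) (r : Fin (n + 1)) : Cy G n (fun i => c (i + r)) :=
  ⟨fun _ _ hij => add_right_cancel (h.inj hij), fun i => by
    have := h.adj (i + r)
    rw [add_right_comm] at this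
    exact this, h.max⟩

theorem Cy.lc (hn : 2 ≤ n) (h : Cy G n c) : LC G (List.ofFn c) := by
  refine ⟨⟨⟨List.nodup_ofFn.2 h.inj, ?_⟩, ?_, ?_⟩, ?_⟩
  · rw [List.isChain_iff_getElem]
    intro i hi
    simp only [List.length_ofFn] at hi
    rw [List.getElem_ofFn, List.getElem_ofFn]
    have h1 := h.adj ⟨i, by omega⟩
    have h2 : (⟨i, by omega⟩ : Fin (n + 1)) + 1 = ⟨i + 1, hi⟩ := by
      apply Fin.ext
      rw [Fin.val_add_one_of_lt]
      rw [Fin.lt_def, Fin.val_last]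
      show i < n
      omega
    rw [h2] at h1
    exact h1
  · rw [List.length_ofFn]
    omega
  · intro x hx y hy
    have h1 : (List.ofFn c).getLast? = some (c (Fin.last n)) := by
      rw [List.getLast?_eq_getElem?, List.length_ofFn, List.getElem?_ofFn]
      rw [dif_pos (by omega)]
      rfl
    have h2 : (List.ofFn c).head? = some (c 0) := by
      rw [List.head?_eq_getElem?, List.getElem?_ofFn, dif_pos (by omega)]
      rfl
    rw [h1] at hx
    rw [h2] at hy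
    have h3 := Option.some.inj hx
    have h4 := Option.some.inj hy
    have h5 := h.adj (Fin.last n)
    rw [Fin.last_add_one] at h5
    rw [← h3, ← h4]
    exact h5
  · intro l hl
    rw [List.length_ofFn]
    exact h.max l hl

theorem of_lc {K : List V} (h : LC G K) (hk : K.length = n + 1) :
    Cy G n (fun i : Fin (n + 1) => K[(i : ℕ)]'(by rw [hk]; exact i.isLt)) := by
  obtain ⟨⟨⟨h1, h2⟩, h3, h4⟩, h5⟩ := h
  refine ⟨?_, ?_, fun l hl => hk ▸ h5 l hl⟩
  · intro i j hij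
    exact Fin.ext ((List.Nodup.getElem_inj_iff h1).1 hij)
  · intro i
    rw [List.isChain_iff_getElem] at h2
    by_cases hi : i = Fin.last n
    · subst hi
      have h6 := h4 (K[n]'(by omega)) (by
        have e3 : K.length - 1 = n := by omega
        rw [List.getLast?_eq_getElem?, e3]
        exact List.getElem?_eq_getElem _) (K[0]'(by omega)) (by
        rw [List.head?_eq_getElem?]
        exact List.getElem?_eq_getElem _)
      have e2 : ((Fin.last n + 1 : Fin (n + 1)) : ℕ) = 0 := by rw [Fin.last_add_one]; rfl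
      simp only [Fin.val_last, e2]
      exact h6
    · have hi' : (i : ℕ) < n := by
        have := i.isLt
        have h7 : (i : ℕ) ≠ n := fun h => hi (Fin.ext h)
        omega
      have h6 := h2 i (by omega)
      have e2 : ((i + 1 : Fin (n + 1)) : ℕ) = i + 1 := by
        rw [Fin.val_add_one_of_lt]
        rw [Fin.lt_def, Fin.val_last]
        exact hi'
      simp only [e2]
      exact h6

theorem get_ofFn (i : Fin (n + 1)) : (List.ofFn c)[(i : ℕ)]? = some (c i) := by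
  rw [List.getElem?_ofFn, dif_pos i.isLt]

theorem not_mem {x : V} (hx : ∀ i, c i ≠ x) : x ∉ List.ofFn c := by
  rw [List.mem_ofFn]
  rintro ⟨i, hi⟩
  exact hx i hi

/-- two feet of a vertex -/
theorem Cy.f2 (hn : 2 ≤ n) (h : Cy G n c) (g : Gi G) {x : V} (hx : ∀ i, c i ≠ x)
    {i j : Fin (n + 1)} (hij : i ≠ j) (h1 : G.Adj x (c i)) (h2 : G.Adj x (c j)) :
    far (n + 1) i j 2 := by
  have := (h.lc hn).nbr_far g (get_ofFn i) (get_ofFn j) (fun e => hij (h.inj e)) (not_mem hx) h1 h2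
  rwa [List.length_ofFn] at this

/-- feet of adjacent vertices -/
theorem Cy.f3 (hn : 2 ≤ n) (h : Cy G n c) (g : Gi G) {x y : V} (hx : ∀ i, c i ≠ x)
    (hy : ∀ i, c i ≠ y) (hxy : G.Adj x y)
    {i j : Fin (n + 1)} (h1 : G.Adj x (c i)) (h2 : G.Adj y (c j)) :
    far (n + 1) i j 2 := by
  have hne : c i ≠ c j := by
    intro e
    rw [← e] at h2
    exact g.tri x y (c i) hxy h2 h1.symm
  have := (h.lc hn).ear (get_ofFn i) (get_ofFn j) hne (q := [x, y])
    ⟨by simpa using hxy.ne, by simpa using hxy⟩ (by simp) (by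
      intro z hz
      simp only [List.mem_cons, List.not_mem_nil, or_false] at hz
      rcases hz with rfl | rfl
      · exact not_mem hx
      · exact not_mem hy)
    (by rw [jo_cons_right, jo_single]; exact h1.symm)
    (by
      intro z hz w hw
      simp only [List.getLast?_cons_cons, List.getLast?_singleton, Option.mem_def,
        Option.some.injEq, List.head?_cons] at hz hw
      rw [← hz, ← hw]
      exact h2)
  rwa [List.length_ofFn] at this

/-! ### Circuits given by lists of positions -/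

/-- neighbours, or the pair `(a, b)` -/
def Nx (a b i j : Fin (n + 1)) : Prop := i + 1 = j ∨ j + 1 = i ∨ (i = a ∧ j = b)

instance (a b i j : Fin (n + 1)) : Decidable (Nx a b i j) := by unfold Nx; infer_instance

theorem Cy.chain (h : Cy G n c) {a b : Fin (n + 1)} (hab : G.Adj (c a) (c b))
    {L : List (Fin (n + 1))} (hL : L.Nodup) (hc : L.IsChain (Nx a b)) : Pa G (L.map c) := by
  refine ⟨(List.nodup_map_iff h.inj).2 hL, ?_⟩
  rw [List.isChain_map]
  refine hc.imp fun i j hij => ?_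
  rcases hij with rfl | rfl | ⟨rfl, rfl⟩
  · exact h.adj i
  · exact (h.adj j).symm
  · exact hab

theorem Cy.circ1 (h : Cy G n c) {w : V} (hw : ∀ i, c i ≠ w)
    {a b : Fin (n + 1)} (hab : G.Adj (c a) (c b)) {x y : Fin (n + 1)} (hx : G.Adj w (c x))
    (hy : G.Adj w (c y)) (L : List (Fin (n + 1))) (hL : L.Nodup) (hc : L.IsChain (Nx a b))
    (h2 : 2 ≤ L.length) (h3 : L.getLast? = some x) (h4 : L.head? = some y) :
    L.length + 1 ≤ n + 1 := by
  have h5 : Ci G (L.map c ++ [w]) := by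
    have hp := h.chain hab hL hc
    refine ⟨pa_append.2 ⟨hp, pa_single w, ?_, ?_⟩, ?_, ?_⟩
    · intro z hz hz2
      rw [List.mem_singleton] at hz2
      obtain ⟨i, -, hi⟩ := List.mem_map.1 hz
      exact hw i (hi.trans hz2)
    · intro z hz z2 hz2
      rw [List.getLast?_map, h3] at hz
      have e1 := Option.some.inj hz
      have e2 := Option.some.inj hz2
      rw [← e1, ← e2]
      exact hx.symm
    · rw [List.length_append, List.length_map, List.length_singleton]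
      omega
    · rw [jo_append_left (by simp)]
      intro z hz z2 hz2
      have e1 := Option.some.inj hz
      rw [List.head?_append_of_ne_nil _ (by
        intro h6
        rw [List.map_eq_nil_iff] at h6
        rw [h6] at h2
        simp at h2), List.head?_map, h4] at hz2
      have e2 := Option.some.inj hz2
      rw [← e1, ← e2]
      exact hy
  have h6 := h.max _ h5
  rwa [List.length_append, List.length_map, List.length_singleton] at h6

theorem Cy.circ2 (h : Cy G n c) {w w' : V} (hw : ∀ i, c i ≠ w) (hw' : ∀ i, c i ≠ w')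
    (hww : G.Adj w w') {a b : Fin (n + 1)} (hab : G.Adj (c a) (c b)) {x y : Fin (n + 1)}
    (hx : G.Adj w' (c x)) (hy : G.Adj w (c y)) (L : List (Fin (n + 1))) (hL : L.Nodup)
    (hc : L.IsChain (Nx a b)) (h2 : 2 ≤ L.length) (h3 : L.getLast? = some x)
    (h4 : L.head? = some y) : L.length + 2 ≤ n + 1 := by
  have h5 : Ci G (L.map c ++ [w', w]) := by
    have hp := h.chain hab hL hc
    refine ⟨pa_append.2 ⟨hp, ⟨by simpa using hww.ne', by simpa using hww.symm⟩, ?_, ?_⟩, ?_, ?_⟩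
    · intro z hz hz2
      simp only [List.mem_cons, List.not_mem_nil, or_false] at hz2
      obtain ⟨i, -, hi⟩ := List.mem_map.1 hz
      rcases hz2 with hz2 | hz2
      · exact hw' i (hi.trans hz2)
      · exact hw i (hi.trans hz2)
    · intro z hz z2 hz2
      rw [List.getLast?_map, h3] at hz
      have e1 := Option.some.inj hz
      have e2 := Option.some.inj hz2
      rw [← e1, ← e2]
      exact hx.symm
    · rw [List.length_append, List.length_map, List.length_cons, List.length_singleton]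
      omega
    · rw [jo_append_left (by simp)]
      intro z hz z2 hz2
      have e1 := Option.some.inj hz
      rw [List.head?_append_of_ne_nil _ (by
        intro h6
        rw [List.map_eq_nil_iff] at h6
        rw [h6] at h2
        simp at h2), List.head?_map, h4] at hz2
      have e2 := Option.some.inj hz2
      rw [← e1, ← e2]
      exact hy
  have h6 := h.max _ h5
  rwa [List.length_append, List.length_map, List.length_cons, List.length_singleton] at h6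

/-- no circuits with four vertices, two of them outside or inside -/
theorem Cy.sq (h : Cy G n c) (g : Gi G) {w : V} (hw : ∀ i, c i ≠ w) {a b d : Fin (n + 1)}
    (h1 : G.Adj w (c a)) (h2 : G.Adj (c a) (c b)) (h3 : G.Adj (c b) (c d)) (h4 : G.Adj w (c d))
    (had : a ≠ d) : False :=
  g.sq w (c a) (c b) (c d) (hw b).symm (fun e => had (h.inj e)) h1 h2 h3 h4.symm

/-! ### Exchange of two vertices -/

/-- the circuit with `w`, `w'` in place of the positions `1`, `2` -/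
def sc (c : Fin (n + 1) → V) (w w' : V) : Fin (n + 1) → V :=
  fun i => if i = 1 then w else if i = 2 then w' else c i

theorem Cy.swap (hn : n = 11 ∨ n = 12) (h : Cy G n c) {w w' : V} (hw : ∀ i, c i ≠ w)
    (hw' : ∀ i, c i ≠ w') (hww : G.Adj w w') (h0 : G.Adj w (c 0)) (h3 : G.Adj w' (c 3)) :
    Cy G n (sc c w w') := by
  have d : (0 : Fin (n + 1)) ≠ 1 ∧ (0 : Fin (n + 1)) ≠ 2 ∧ (1 : Fin (n + 1)) ≠ 2 ∧
      (3 : Fin (n + 1)) ≠ 1 ∧ (3 : Fin (n + 1)) ≠ 2 ∧ (0 : Fin (n + 1)) + 1 = 1 ∧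
      (1 : Fin (n + 1)) + 1 = 2 ∧ (2 : Fin (n + 1)) + 1 = 3 := by
    rcases hn with rfl | rfl <;> decide
  obtain ⟨d1, d2, d3, d4, d5, e1, e2, e3⟩ := d
  refine ⟨?_, ?_, h.max⟩
  · intro i j hij
    unfold sc at hij
    split_ifs at hij with h1 h2 h4 h5 h6 h7 h8 h9
    · rw [h1, h2]
    · exact absurd hij hww.ne
    · exact absurd hij.symm (hw j)
    · exact absurd hij hww.ne'
    · rw [h5, h7]
    · exact absurd hij.symm (hw' j)
    · exact absurd hij (hw i)
    · exact absurd hij (hw' i)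
    · exact h.inj hij
  · intro i
    by_cases i0 : i = 0
    · subst i0
      rw [e1]
      unfold sc
      rw [if_neg d1, if_neg d2, if_pos rfl]
      exact h0.symm
    · by_cases i1 : i = 1
      · subst i1
        rw [e2]
        unfold sc
        rw [if_pos rfl, if_neg d3.symm, if_pos rfl]
        exact hww
      · by_cases i2 : i = 2
        · subst i2
          rw [e3]
          unfold sc
          rw [if_neg d3.symm, if_pos rfl, if_neg d4, if_neg d5]
          exact h3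
        · have j1 : i + 1 ≠ 1 := by
            intro e
            exact i0 (add_right_cancel (e.trans e1.symm))
          have j2 : i + 1 ≠ 2 := by
            intro e
            exact i1 (add_right_cancel (e.trans e2.symm))
          unfold sc
          rw [if_neg i1, if_neg i2, if_neg j1, if_neg j2]
          exact h.adj i

/-- the feet of the exchanged vertices -/
theorem Cy.sw (hn : n = 11 ∨ n = 12) (g : Gi G) (he : HE G n) (h : Cy G n c) {w w' : V}
    (hw : ∀ i, c i ≠ w) (hw' : ∀ i, c i ≠ w') (hww : G.Adj w w') (h0 : G.Adj w (c 0))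
    (h3 : G.Adj w' (c 3)) : ∃ α β : Fin (n + 1), 6 ≤ (α : ℕ) ∧ (α : ℕ) + 3 ≤ n + 1 ∧
      6 ≤ (β : ℕ) ∧ (β : ℕ) + 3 ≤ n + 1 ∧ ((α : ℕ) + 3 ≤ β ∨ (β : ℕ) + 3 ≤ α) ∧
      G.Adj (c 1) (c α) ∧ G.Adj (c 2) (c β) := by
  have hc := h.swap hn hw hw' hww h0 h3
  have d : (0 : Fin (n + 1)) ≠ 1 ∧ (0 : Fin (n + 1)) ≠ 2 ∧ (1 : Fin (n + 1)) ≠ 2 ∧
      (3 : Fin (n + 1)) ≠ 1 ∧ (3 : Fin (n + 1)) ≠ 2 ∧ (0 : Fin (n + 1)) + 1 = 1 ∧
      (1 : Fin (n + 1)) + 1 = 2 ∧ (2 : Fin (n + 1)) + 1 = 3 ∧ ((0 : Fin (n + 1)) : ℕ) = 0 ∧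
      ((1 : Fin (n + 1)) : ℕ) = 1 ∧ ((2 : Fin (n + 1)) : ℕ) = 2 ∧ ((3 : Fin (n + 1)) : ℕ) = 3 := by
    rcases hn with rfl | rfl <;> decide
  obtain ⟨d1, d2, d3, d4, d5, e1, e2, e3, v0, v1, v2, v3⟩ := d
  have hn2 : 2 ≤ n := by omega
  have hu : ∀ i, sc c w w' i ≠ c 1 := by
    intro i hi
    unfold sc at hi
    split_ifs at hi with h1 h2
    · exact hw 1 hi.symm
    · exact hw' 1 hi.symm
    · exact h1 (h.inj hi)
  have hv : ∀ i, sc c w w' i ≠ c 2 := by
    intro i hi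
    unfold sc at hi
    split_ifs at hi with h1 h2
    · exact hw 2 hi.symm
    · exact hw' 2 hi.symm
    · exact h2 (h.inj hi)
  have huv : G.Adj (c 1) (c 2) := by
    have := h.adj 1
    rwa [e2] at this
  have s0 : sc c w w' 0 = c 0 := by
    unfold sc
    rw [if_neg d1, if_neg d2]
  have s3 : sc c w w' 3 = c 3 := by
    unfold sc
    rw [if_neg d4, if_neg d5]
  have u0 : G.Adj (c 1) (sc c w w' 0) := by
    rw [s0]
    have := h.adj 0
    rw [e1] at this
    exact this.symm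
  have v3' : G.Adj (c 2) (sc c w w' 3) := by
    rw [s3]
    have := h.adj 2
    rwa [e3] at this
  obtain ⟨α, hα0, hα⟩ : ∃ α, α ≠ 0 ∧ G.Adj (c 1) (sc c w w' α) := by
    obtain ⟨i, j, hij, hi, hj⟩ := he _ hc _ _ hu hv huv
    by_cases i0 : i = 0
    · exact ⟨j, fun e => hij (i0.trans e.symm), hj⟩
    · exact ⟨i, i0, hi⟩
  obtain ⟨β, hβ0, hβ⟩ : ∃ β, β ≠ 3 ∧ G.Adj (c 2) (sc c w w' β) := by
    obtain ⟨i, j, hij, hi, hj⟩ := he _ hc _ _ hv hu huv.symm
    by_cases i0 : i = 3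
    · exact ⟨j, fun e => hij (i0.trans e.symm), hj⟩
    · exact ⟨i, i0, hi⟩
  have f1 := hc.f2 hn2 g hu (Ne.symm hα0) u0 hα
  have f2 := hc.f3 hn2 g hu hv huv hα v3'
  have f3 := hc.f2 hn2 g hv (Ne.symm hβ0) v3' hβ
  have f4 := hc.f3 hn2 g hu hv huv u0 hβ
  have f5 := hc.f3 hn2 g hu hv huv hα hβ
  have hαl := α.isLt
  have hβl := β.isLt
  unfold far at f1 f2 f3 f4 f5
  rw [v0] at f1 f4
  rw [v3] at f2 f3
  have hα6 : 6 ≤ (α : ℕ) ∧ (α : ℕ) + 3 ≤ n + 1 := by omega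
  have hβ6 : 6 ≤ (β : ℕ) ∧ (β : ℕ) + 3 ≤ n + 1 := by omega
  have sα : sc c w w' α = c α := by
    unfold sc
    rw [if_neg, if_neg]
    · intro e
      rw [e, v2] at hα6
      omega
    · intro e
      rw [e, v1] at hα6
      omega
  have sβ : sc c w w' β = c β := by
    unfold sc
    rw [if_neg, if_neg]
    · intro e
      rw [e, v2] at hβ6
      omega
    · intro e
      rw [e, v1] at hβ6
      omega
  rw [sα] at hα
  rw [sβ] at hβ
  exact ⟨α, β, hα6.1, hα6.2, hβ6.1, hβ6.2, by omega, hα, hβ⟩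

/-! ### Crossing pairs of feet -/

theorem cr13 {c : Fin 13 → V} (g : Gi G) (he : HE G 12) (h : Cy G 12 c) {w w' : V}
    (hw : ∀ i, c i ≠ w) (hw' : ∀ i, c i ≠ w') (hww : G.Adj w w') (h0 : G.Adj w (c 0))
    (h6 : G.Adj w (c 6)) (h3 : G.Adj w' (c 3)) (h9 : G.Adj w' (c 9)) : False := by
  have k1 : G.Adj (c 1) (c 9) := by
    obtain ⟨α, β, a1, a2, b1, b2, ab, ha, hb⟩ := h.sw (Or.inr rfl) g he hw hw' hww h0 h3
    have hα : (α : ℕ) = 6 ∨ (β : ℕ) = 10 ∨ (α : ℕ) = 9 ∨ (α : ℕ) = 10 := by omega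
    rcases hα with e | e | e | e
    · obtain rfl : α = 6 := Fin.ext e
      exact (h.sq g hw h0 (h.adj 0) ha h6 (by decide)).elim
    · obtain rfl : β = 10 := Fin.ext e
      exact absurd (h.circ2 hw hw' hww hb.symm h9 h0 [0, 12, 11, 10, 2, 3, 4, 5, 6, 7, 8, 9]
        (by decide) (by decide) (by decide) rfl rfl) (by decide)
    · obtain rfl : α = 9 := Fin.ext e
      exact ha
    · obtain rfl : α = 10 := Fin.ext e
      exact absurd (h.circ2 hw hw' hww ha.symm h9 h0 [0, 12, 11, 10, 1, 2, 3, 4, 5, 6, 7, 8, 9]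
        (by decide) (by decide) (by decide) rfl rfl) (by decide)
  have k2 : G.Adj (c 8) (c 0) := by
    obtain ⟨α, β, a1, a2, b1, b2, ab, ha, hb⟩ := (h.rot 6).sw (Or.inr rfl) g he
      (fun i => hw _) (fun i => hw' _) hww h6 h9
    have hα : (α : ℕ) = 6 ∨ (α : ℕ) = 7 ∨ (β : ℕ) = 6 ∨ (β : ℕ) = 7 := by omega
    rcases hα with e | e | e | e
    · obtain rfl : α = 6 := Fin.ext e
      have ha' : G.Adj (c 7) (c 12) := ha
      exact absurd (h.circ2 hw hw' hww ha' h9 h0 [0, 1, 2, 3, 4, 5, 6, 7, 12, 11, 10, 9]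
        (by decide) (by decide) (by decide) rfl rfl) (by decide)
    · obtain rfl : α = 7 := Fin.ext e
      have ha' : G.Adj (c 7) (c 0) := ha
      exact (h.sq g hw h0 ha'.symm (h.adj 6).symm h6 (by decide)).elim
    · obtain rfl : β = 6 := Fin.ext e
      have hb' : G.Adj (c 8) (c 12) := hb
      exact absurd (h.circ2 hw hw' hww hb' h9 h0 [0, 1, 2, 3, 4, 5, 6, 7, 8, 12, 11, 10, 9]
        (by decide) (by decide) (by decide) rfl rfl) (by decide)
    · obtain rfl : β = 7 := Fin.ext e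
      exact hb
  exact g.sq (c 1) (c 0) (c 8) (c 9) (fun e => absurd (h.inj e) (by decide))
    (fun e => absurd (h.inj e) (by decide)) (h.adj 0).symm k2.symm (h.adj 8) k1.symm

theorem cr12 {c : Fin 12 → V} (g : Gi G) (he : HE G 11) (h : Cy G 11 c) {w w' : V}
    (hw : ∀ i, c i ≠ w) (hw' : ∀ i, c i ≠ w') (hww : G.Adj w w') (h0 : G.Adj w (c 0))
    (h6 : G.Adj w (c 6)) (h3 : G.Adj w' (c 3)) (h9 : G.Adj w' (c 9)) : False := by
  have k1 : G.Adj (c 1) (c 9) := by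
    obtain ⟨α, β, a1, a2, b1, b2, ab, ha, hb⟩ := h.sw (Or.inl rfl) g he hw hw' hww h0 h3
    have hα : (α : ℕ) = 6 ∨ (α : ℕ) = 9 := by omega
    rcases hα with e | e
    · obtain rfl : α = 6 := Fin.ext e
      exact (h.sq g hw h0 (h.adj 0) ha h6 (by decide)).elim
    · obtain rfl : α = 9 := Fin.ext e
      exact ha
  have k2 : G.Adj (c 8) (c 0) := by
    obtain ⟨α, β, a1, a2, b1, b2, ab, ha, hb⟩ := (h.rot 6).sw (Or.inl rfl) g he
      (fun i => hw _) (fun i => hw' _) hww h6 h9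
    have hα : (α : ℕ) = 6 ∨ (β : ℕ) = 6 := by omega
    rcases hα with e | e
    · obtain rfl : α = 6 := Fin.ext e
      have ha' : G.Adj (c 7) (c 0) := ha
      exact (h.sq g hw h0 ha'.symm (h.adj 6).symm h6 (by decide)).elim
    · obtain rfl : β = 6 := Fin.ext e
      exact hb
  exact g.sq (c 1) (c 0) (c 8) (c 9) (fun e => absurd (h.inj e) (by decide))
    (fun e => absurd (h.inj e) (by decide)) (h.adj 0).symm k2.symm (h.adj 8) k1.symm

/-! ### Pairs of feet which do not cross -/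

theorem nc13 {c : Fin 13 → V} (g : Gi G) (he : HE G 12) (h : Cy G 12 c) {w w' : V}
    (hw : ∀ i, c i ≠ w) (hw' : ∀ i, c i ≠ w') (hww : G.Adj w w') (h0 : G.Adj w (c 0))
    (h3 : G.Adj w' (c 3)) {s t : Fin 13} (hs : G.Adj w' (c s)) (ht : G.Adj w (c t))
    (hst : (s = 6 ∧ t = 9) ∨ (s = 6 ∧ t = 10) ∨ (s = 7 ∧ t = 10)) : False := by
  obtain ⟨α, β, a1, a2, b1, b2, ab, ha, hb⟩ := h.sw (Or.inr rfl) g he hw hw' hww h0 h3
  have hc := h.swap (Or.inr rfl) hw hw' hww h0 h3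
  have hu : ∀ i, sc c w w' i ≠ c 1 := by
    intro i hi
    unfold sc at hi
    split_ifs at hi with h1 h2
    · exact hw 1 hi.symm
    · exact hw' 1 hi.symm
    · exact h1 (h.inj hi)
  have hv : ∀ i, sc c w w' i ≠ c 2 := by
    intro i hi
    unfold sc at hi
    split_ifs at hi with h1 h2
    · exact hw 2 hi.symm
    · exact hw' 2 hi.symm
    · exact h2 (h.inj hi)
  have s0 : sc c w w' 0 = c 0 := rfl
  have s3 : sc c w w' 3 = c 3 := rfl
  have hαt : α ≠ t := by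
    rintro rfl
    refine h.sq g hw h0 (h.adj 0) ha ht ?_
    rintro rfl
    exact absurd a1 (by decide)
  have hβs : β ≠ s := by
    rintro rfl
    refine h.sq g hw' h3 (h.adj 2).symm hb hs ?_
    rintro rfl
    exact absurd b1 (by decide)
  have hαβ : ((α : ℕ) = 6 ∧ (β : ℕ) = 9) ∨ ((α : ℕ) = 6 ∧ (β : ℕ) = 10) ∨
      ((α : ℕ) = 7 ∧ (β : ℕ) = 10) ∨ ((α : ℕ) = 9 ∧ (β : ℕ) = 6) ∨
      ((α : ℕ) = 10 ∧ (β : ℕ) = 6) ∨ ((α : ℕ) = 10 ∧ (β : ℕ) = 7) := by omega
  rcases hαβ with ⟨e1, e2⟩ | ⟨e1, e2⟩ | ⟨e1, e2⟩ | ⟨e1, e2⟩ | ⟨e1, e2⟩ | ⟨e1, e2⟩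
  · obtain rfl : α = 6 := Fin.ext e1
    obtain rfl : β = 9 := Fin.ext e2
    exact cr13 g he hc hu hv (h.adj 1) (h.adj 0).symm ha (h.adj 2) hb
  · obtain rfl : α = 6 := Fin.ext e1
    obtain rfl : β = 10 := Fin.ext e2
    exact cr13 g he (hc.rot 10) (fun i => hv _) (fun i => hu _) (h.adj 1).symm hb (h.adj 2)
      (h.adj 0).symm ha
  · obtain rfl : α = 7 := Fin.ext e1
    obtain rfl : β = 10 := Fin.ext e2
    exact cr13 g he (hc.rot 7) (fun i => hu _) (fun i => hv _) (h.adj 1) ha (h.adj 0).symm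
      hb (h.adj 2)
  · obtain rfl : α = 9 := Fin.ext e1
    obtain rfl : β = 6 := Fin.ext e2
    rcases hst with ⟨rfl, rfl⟩ | ⟨rfl, rfl⟩ | ⟨rfl, rfl⟩
    · exact hαt rfl
    · exact hβs rfl
    · exact absurd (h.circ1 hw' hb h3 hs [7, 8, 9, 10, 11, 12, 0, 1, 2, 6, 5, 4, 3]
        (by decide) (by decide) (by decide) rfl rfl) (by decide)
  · obtain rfl : α = 10 := Fin.ext e1
    obtain rfl : β = 6 := Fin.ext e2
    rcases hst with ⟨rfl, rfl⟩ | ⟨rfl, rfl⟩ | ⟨rfl, rfl⟩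
    · exact hβs rfl
    · exact hαt rfl
    · exact hαt rfl
  · obtain rfl : α = 10 := Fin.ext e1
    obtain rfl : β = 7 := Fin.ext e2
    rcases hst with ⟨rfl, rfl⟩ | ⟨rfl, rfl⟩ | ⟨rfl, rfl⟩
    · exact absurd (h.circ2 hw hw' hww hb h3 ht [9, 10, 11, 12, 0, 1, 2, 7, 6, 5, 4, 3]
        (by decide) (by decide) (by decide) rfl rfl) (by decide)
    · exact hαt rfl
    · exact hαt rfl

theorem nc12 {c : Fin 12 → V} (g : Gi G) (he : HE G 11) (h : Cy G 11 c) {w w' : V}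
    (hw : ∀ i, c i ≠ w) (hw' : ∀ i, c i ≠ w') (hww : G.Adj w w') (h0 : G.Adj w (c 0))
    (h3 : G.Adj w' (c 3)) (ht : G.Adj w (c 9)) : False := by
  obtain ⟨α, β, a1, a2, b1, b2, ab, ha, hb⟩ := h.sw (Or.inl rfl) g he hw hw' hww h0 h3
  have hc := h.swap (Or.inl rfl) hw hw' hww h0 h3
  have hu : ∀ i, sc c w w' i ≠ c 1 := by
    intro i hi
    unfold sc at hi
    split_ifs at hi with h1 h2
    · exact hw 1 hi.symm
    · exact hw' 1 hi.symm
    · exact h1 (h.inj hi)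
  have hv : ∀ i, sc c w w' i ≠ c 2 := by
    intro i hi
    unfold sc at hi
    split_ifs at hi with h1 h2
    · exact hw 2 hi.symm
    · exact hw' 2 hi.symm
    · exact h2 (h.inj hi)
  have hαβ : ((α : ℕ) = 6 ∧ (β : ℕ) = 9) ∨ (α : ℕ) = 9 := by omega
  rcases hαβ with ⟨e1, e2⟩ | e1
  · obtain rfl : α = 6 := Fin.ext e1
    obtain rfl : β = 9 := Fin.ext e2
    exact cr12 g he hc hu hv (h.adj 1) (h.adj 0).symm ha (h.adj 2) hb
  · obtain rfl : α = 9 := Fin.ext e1
    exact h.sq g hw h0 (h.adj 0) ha ht (by decide)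

/-! ### All positions -/

/-- the differences of the positions of the feet -/
theorem Cy.pos (hn : 2 ≤ n) (h : Cy G n c) (g : Gi G) {w w' : V}
    (hw : ∀ i, c i ≠ w) (hw' : ∀ i, c i ≠ w') (hww : G.Adj w w') (h0 : G.Adj w (c 0))
    {i j l : Fin (n + 1)} (hi : G.Adj w (c i)) (hj : G.Adj w' (c j)) (hl : G.Adj w' (c l))
    (hi0 : i ≠ 0) (hjl : (j : ℕ) < l) : 3 ≤ (i : ℕ) ∧ (i : ℕ) + 3 ≤ n + 1 ∧ 3 ≤ (j : ℕ) ∧
      (j : ℕ) + 3 ≤ l ∧ (l : ℕ) + 3 ≤ n + 1 ∧ ((i : ℕ) + 3 ≤ j ∨ (j : ℕ) + 3 ≤ i) ∧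
      ((i : ℕ) + 3 ≤ l ∨ (l : ℕ) + 3 ≤ i) := by
  have f1 := h.f2 hn g hw (Ne.symm hi0) h0 hi
  have f2 := h.f2 hn g hw' (fun e => by rw [e] at hjl; exact lt_irrefl _ hjl) hj hl
  have f3 := h.f3 hn g hw hw' hww h0 hj
  have f4 := h.f3 hn g hw hw' hww h0 hl
  have f5 := h.f3 hn g hw hw' hww hi hj
  have f6 := h.f3 hn g hw hw' hww hi hl
  unfold far at f1 f2 f3 f4 f5 f6
  rw [Fin.val_zero] at f1 f3 f4
  refine ⟨?_, ?_, ?_, ?_, ?_, ?_, ?_⟩ <;> omega

theorem all13 {c : Fin 13 → V} (g : Gi G) (he : HE G 12) (h : Cy G 12 c) {w w' : V}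
    (hw : ∀ i, c i ≠ w) (hw' : ∀ i, c i ≠ w') (hww : G.Adj w w') (h0 : G.Adj w (c 0))
    {i j l : Fin 13} (hi : G.Adj w (c i)) (hj : G.Adj w' (c j)) (hl : G.Adj w' (c l))
    (hi0 : i ≠ 0) (hjl : (j : ℕ) < l) : False := by
  obtain ⟨p1, p2, p3, p4, p5, p6, p7⟩ := h.pos (by omega) g hw hw' hww h0 hi hj hl hi0 hjl
  rcases p6 with q6 | q6
  · have hall : ((i : ℕ) = 3 ∧ (j : ℕ) = 6 ∧ (l : ℕ) = 9) ∨ ((i : ℕ) = 3 ∧ (j : ℕ) = 6 ∧ (l : ℕ) = 10) ∨
      ((i : ℕ) = 3 ∧ (j : ℕ) = 7 ∧ (l : ℕ) = 10) ∨ ((i : ℕ) = 4 ∧ (j : ℕ) = 7 ∧ (l : ℕ) = 10) := by omega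
    rcases hall with ⟨e1, e2, e3⟩ | ⟨e1, e2, e3⟩ | ⟨e1, e2, e3⟩ | ⟨e1, e2, e3⟩
    · obtain rfl : i = 3 := Fin.ext e1
      obtain rfl : j = 6 := Fin.ext e2
      obtain rfl : l = 9 := Fin.ext e3
      exact nc13 g he (h.rot 3) (fun i => hw _) (fun i => hw' _) hww hi hj
        (s := 6) (t := 10) hl h0 (by decide)
    · obtain rfl : i = 3 := Fin.ext e1
      obtain rfl : j = 6 := Fin.ext e2
      obtain rfl : l = 10 := Fin.ext e3
      exact nc13 g he (h.rot 3) (fun i => hw _) (fun i => hw' _) hww hi hj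
        (s := 7) (t := 10) hl h0 (by decide)
    · obtain rfl : i = 3 := Fin.ext e1
      obtain rfl : j = 7 := Fin.ext e2
      obtain rfl : l = 10 := Fin.ext e3
      exact nc13 g he (h.rot 10) (fun i => hw' _) (fun i => hw _) hww.symm hl h0
        (s := 6) (t := 10) hi hj (by decide)
    · obtain rfl : i = 4 := Fin.ext e1
      obtain rfl : j = 7 := Fin.ext e2
      obtain rfl : l = 10 := Fin.ext e3
      exact nc13 g he (h.rot 4) (fun i => hw _) (fun i => hw' _) hww hi hj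
        (s := 6) (t := 9) hl h0 (by decide)
  rcases p7 with q7 | q7
  · have hall : ((i : ℕ) = 6 ∧ (j : ℕ) = 3 ∧ (l : ℕ) = 9) ∨ ((i : ℕ) = 6 ∧ (j : ℕ) = 3 ∧ (l : ℕ) = 10) ∨
      ((i : ℕ) = 7 ∧ (j : ℕ) = 3 ∧ (l : ℕ) = 10) ∨ ((i : ℕ) = 7 ∧ (j : ℕ) = 4 ∧ (l : ℕ) = 10) := by omega
    rcases hall with ⟨e1, e2, e3⟩ | ⟨e1, e2, e3⟩ | ⟨e1, e2, e3⟩ | ⟨e1, e2, e3⟩
    · obtain rfl : i = 6 := Fin.ext e1
      obtain rfl : j = 3 := Fin.ext e2
      obtain rfl : l = 9 := Fin.ext e3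
      exact cr13 g he h hw hw' hww h0 hi hj hl
    · obtain rfl : i = 6 := Fin.ext e1
      obtain rfl : j = 3 := Fin.ext e2
      obtain rfl : l = 10 := Fin.ext e3
      exact cr13 g he (h.rot 10) (fun i => hw' _) (fun i => hw _) hww.symm hl hj h0 hi
    · obtain rfl : i = 7 := Fin.ext e1
      obtain rfl : j = 3 := Fin.ext e2
      obtain rfl : l = 10 := Fin.ext e3
      exact cr13 g he (h.rot 7) (fun i => hw _) (fun i => hw' _) hww hi h0 hl hj
    · obtain rfl : i = 7 := Fin.ext e1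
      obtain rfl : j = 4 := Fin.ext e2
      obtain rfl : l = 10 := Fin.ext e3
      exact cr13 g he (h.rot 4) (fun i => hw' _) (fun i => hw _) hww.symm hj hl hi h0
  · have hall : ((i : ℕ) = 9 ∧ (j : ℕ) = 3 ∧ (l : ℕ) = 6) ∨ ((i : ℕ) = 10 ∧ (j : ℕ) = 3 ∧ (l : ℕ) = 6) ∨
      ((i : ℕ) = 10 ∧ (j : ℕ) = 3 ∧ (l : ℕ) = 7) ∨ ((i : ℕ) = 10 ∧ (j : ℕ) = 4 ∧ (l : ℕ) = 7) := by omega
    rcases hall with ⟨e1, e2, e3⟩ | ⟨e1, e2, e3⟩ | ⟨e1, e2, e3⟩ | ⟨e1, e2, e3⟩
    · obtain rfl : i = 9 := Fin.ext e1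
      obtain rfl : j = 3 := Fin.ext e2
      obtain rfl : l = 6 := Fin.ext e3
      exact nc13 g he h hw hw' hww h0 hj hl hi (by decide)
    · obtain rfl : i = 10 := Fin.ext e1
      obtain rfl : j = 3 := Fin.ext e2
      obtain rfl : l = 6 := Fin.ext e3
      exact nc13 g he h hw hw' hww h0 hj hl hi (by decide)
    · obtain rfl : i = 10 := Fin.ext e1
      obtain rfl : j = 3 := Fin.ext e2
      obtain rfl : l = 7 := Fin.ext e3
      exact nc13 g he h hw hw' hww h0 hj hl hi (by decide)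
    · obtain rfl : i = 10 := Fin.ext e1
      obtain rfl : j = 4 := Fin.ext e2
      obtain rfl : l = 7 := Fin.ext e3
      exact nc13 g he (h.rot 7) (fun i => hw' _) (fun i => hw _) hww.symm hl hi
        (s := 6) (t := 10) h0 hj (by decide)

theorem all12 {c : Fin 12 → V} (g : Gi G) (he : HE G 11) (h : Cy G 11 c) {w w' : V}
    (hw : ∀ i, c i ≠ w) (hw' : ∀ i, c i ≠ w') (hww : G.Adj w w') (h0 : G.Adj w (c 0))
    {i j l : Fin 12} (hi : G.Adj w (c i)) (hj : G.Adj w' (c j)) (hl : G.Adj w' (c l))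
    (hi0 : i ≠ 0) (hjl : (j : ℕ) < l) : False := by
  obtain ⟨p1, p2, p3, p4, p5, p6, p7⟩ := h.pos (by omega) g hw hw' hww h0 hi hj hl hi0 hjl
  have hall : ((i : ℕ) = 6 ∧ (j : ℕ) = 3 ∧ (l : ℕ) = 9) ∨
      ((i : ℕ) = 9 ∧ (j : ℕ) = 3 ∧ (l : ℕ) = 6) ∨
      ((i : ℕ) = 3 ∧ (j : ℕ) = 6 ∧ (l : ℕ) = 9) := by
    omega
  rcases hall with ⟨e1, e2, e3⟩ | ⟨e1, e2, e3⟩ | ⟨e1, e2, e3⟩
  · obtain rfl : i = 6 := Fin.ext e1
    obtain rfl : j = 3 := Fin.ext e2
    obtain rfl : l = 9 := Fin.ext e3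
    exact cr12 g he h hw hw' hww h0 hi hj hl
  · obtain rfl : i = 9 := Fin.ext e1
    obtain rfl : j = 3 := Fin.ext e2
    obtain rfl : l = 6 := Fin.ext e3
    exact nc12 g he h hw hw' hww h0 hj hi
  · obtain rfl : i = 3 := Fin.ext e1
    obtain rfl : j = 6 := Fin.ext e2
    obtain rfl : l = 9 := Fin.ext e3
    exact nc12 g he (h.rot 3) (fun i => hw _) (fun i => hw' _) hww hi hj h0

/-- two feet of both ends -/
theorem Cy.fin (hn2 : 2 ≤ n) (hn : n ≤ 12) (g : Gi G) (he : HE G n) (h : Cy G n c) {w w' : V}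
    (hw : ∀ i, c i ≠ w) (hw' : ∀ i, c i ≠ w') (hww : G.Adj w w') : False := by
  obtain ⟨i, j, hij, hi, hj⟩ := he c h w w' hw hw' hww
  obtain ⟨k, l, hkl, hk, hl⟩ := he c h w' w hw' hw hww.symm
  have h' := h.rot i
  have hz : G.Adj w (c (0 + i)) := by
    rw [zero_add]
    exact hi
  have key : ∀ a b d : Fin (n + 1), G.Adj w (c (a + i)) → G.Adj w' (c (b + i)) →
      G.Adj w' (c (d + i)) → a ≠ 0 → (b : ℕ) < d → False := by
    intro a b d ha hb hd ha0 hbd
    obtain ⟨p1, p2, p3, p4, p5, p6, p7⟩ := h'.pos hn2 g (fun i => hw _) (fun i => hw' _) hww hz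
      ha hb hd ha0 hbd
    have hn' : n = 11 ∨ n = 12 := by omega
    rcases hn' with rfl | rfl
    · exact all12 g he h' (fun i => hw _) (fun i => hw' _) hww hz ha hb hd ha0 hbd
    · exact all13 g he h' (fun i => hw _) (fun i => hw' _) hww hz ha hb hd ha0 hbd
  have hj' : G.Adj w (c (j - i + i)) := by rwa [sub_add_cancel]
  have hk' : G.Adj w' (c (k - i + i)) := by rwa [sub_add_cancel]
  have hl' : G.Adj w' (c (l - i + i)) := by rwa [sub_add_cancel]
  have hj0 : j - i ≠ 0 := fun e => hij (sub_eq_zero.1 e).symm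
  have hkl' : ((k - i : Fin (n + 1)) : ℕ) ≠ ((l - i : Fin (n + 1)) : ℕ) :=
    fun e => hkl (sub_left_injective (Fin.ext e))
  rcases lt_or_gt_of_ne hkl' with hlt | hlt
  · exact key _ _ _ hj' hk' hl' hj0 hlt
  · exact key _ _ _ hj' hl' hk' hj0 hlt

theorem main : Pool.Agent.N393.C13.S_edge := by
  intro V G g h13 he K hK x y hx hy hxy
  have h3 := hK.ci.2.1
  obtain ⟨n, hn⟩ : ∃ n, K.length = n + 1 := ⟨K.length - 1, by omega⟩
  have hn2 : 2 ≤ n := by omega
  have hn12 : n ≤ 12 := by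
    have := h13 K hK
    omega
  have hE : HE G n := by
    intro c hc x y hx hy hxy
    obtain ⟨a, ha, b, hb, hab, h1, h2⟩ := he _ (hc.lc hn2) x y (not_mem hx) (not_mem hy) hxy
    obtain ⟨i, rfl⟩ := (List.mem_ofFn' c a).1 ha
    obtain ⟨j, rfl⟩ := (List.mem_ofFn' c b).1 hb
    exact ⟨i, j, fun e => hab (by rw [e]), h1, h2⟩
  refine (of_lc hK hn).fin hn2 hn12 g hE (w := x) (w' := y) ?_ ?_ hxy
  · intro i e
    exact hx (e ▸ List.getElem_mem _)
  · intro i e
    exact hy (e ▸ List.getElem_mem _)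

end Pool.Agent.N393.C13.Edge
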