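import Pool.Agent.N393.C13.Stm
import Pool.Agent.R145.Cir.Ham2

set_option autoImplicit false

/-! # C4: circuits of contractions can be lifted -/

namespace Pool.Agent.N393.C13.Lft

open Relation Pool.Agent.TH362.TF Pool.Agent.R145.Cir Pool.Agent.R890.FF Pool.Agent.R140.PK Pool.Agent.N393.C13

variable {V E : Type} [Fintype V] [DecidableEq V] [DecidableEq E] {s t : E → V} {S : Finset E}
  {π : V → V}

theorem conn (hF : FC s t S π) {x y : V} (h : π x = π y) :
    ∃ q : List V, Pa (nbG s t S) q ∧ q.head? = some x ∧ q.getLast? = some y ∧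
      ∀ v ∈ q, π v = π x := by
  have hcon : ((nbG s t S).induce {v | π v = π x}).Connected := by
    have : Nonempty {v | π v = π x} := ⟨⟨x, rfl⟩⟩
    refine ⟨?_⟩
    rintro ⟨u, hu⟩ ⟨v, hv⟩
    have hu' : π u = π x := hu
    have hv' : π v = π x := hv
    have key : ∀ z, ReflTransGen (St s t S (fun w => π w = π u)) u z →
        ∀ hz : π z = π x, ((nbG s t S).induce {v | π v = π x}).Reachable ⟨u, hu⟩ ⟨z, hz⟩ := by
      intro z hz
      induction hz with
      | refl => exact fun _ => SimpleGraph.Reachable.refl _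
      | tail hpq hstep ih =>
        rename_i p q
        intro hq
        obtain ⟨⟨e, he, hE⟩, hp, hq'⟩ := hstep
        have hpx : π p = π x := hp.trans hu'
        by_cases hpq' : q = p
        · subst hpq'
          exact ih hpx
        · refine (ih hpx).trans (SimpleGraph.Adj.reachable ?_)
          change Nb s t S p q
          exact ⟨hpq', e, he, hE⟩
    exact key v (hF u v (hu'.trans hv'.symm)) hv'
  obtain ⟨q, q1, q2, q3, q4⟩ := conn_path hcon (x := x) (y := y) rfl h.symm
  exact ⟨q, q1, q2, q3, q4⟩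

theorem adj {a b : V} (h : (nbG (fun e => π (s e)) (fun e => π (t e)) S).Adj a b) :
    ∃ x y, π x = a ∧ π y = b ∧ (nbG s t S).Adj x y := by
  obtain ⟨hne, e, he, hE⟩ := h
  have : ∃ u w, Ends s t u w e ∧ π u = a ∧ π w = b := by
    rcases hE with ⟨a1, a2⟩ | ⟨a1, a2⟩
    · exact ⟨s e, t e, Or.inl ⟨rfl, rfl⟩, a1, a2⟩
    · exact ⟨t e, s e, Or.inr ⟨rfl, rfl⟩, a2, a1⟩
  obtain ⟨u, w, hE', hu, hw⟩ := this
  refine ⟨u, w, hu, hw, ?_, e, he, hE'⟩
  rintro rfl
  exact hne (hw.symm.trans hu)

theorem lift_path (hF : FC s t S π) :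
    ∀ (l : List V) (a c : V), Pa (nbG (fun e => π (s e)) (fun e => π (t e)) S) (a :: l) →
      (a :: l).getLast? = some c → ∀ x, π x = a → ∀ y, π y = c →
      ∃ q : List V, Pa (nbG s t S) q ∧ q.head? = some x ∧ q.getLast? = some y ∧
        l.length + 1 ≤ q.length ∧ ∀ v ∈ q, π v ∈ a :: l := by
  intro l
  induction l with
  | nil =>
    intro a c _ hc x hx y hy
    simp only [List.getLast?_singleton, Option.some.injEq] at hc
    subst hc
    obtain ⟨q, q1, q2, q3, q4⟩ := conn hF (x := x) (y := y) (hx.trans hy.symm)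
    refine ⟨q, q1, q2, q3, ?_, fun v hv => by simp [q4 v hv, hx]⟩
    rcases q with _ | ⟨_, q⟩
    · simp at q2
    · simp
  | cons b l ih =>
    intro a c hp hc x hx y hy
    have hab : (nbG (fun e => π (s e)) (fun e => π (t e)) S).Adj a b := by
      have := hp.2
      rw [List.isChain_cons_cons] at this
      exact this.1
    obtain ⟨x1, y1, hx1, hy1, hxy⟩ := adj hab
    obtain ⟨q, q1, q2, q3, q4⟩ := conn hF (x := x) (y := x1) (hx.trans hx1.symm)
    have e : a :: b :: l = [a] ++ (b :: l) := rfl
    have hp2 := hp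
    rw [e, pa_append] at hp2
    obtain ⟨_, pb, pd, _⟩ := hp2
    rw [e, List.getLast?_append_of_ne_nil _ (by simp)] at hc
    obtain ⟨r, r1, r2, r3, r4, r5⟩ := ih b c pb hc y1 hy1 y hy
    have hqne : q ≠ [] := by rintro rfl; simp at q2
    have hrne : r ≠ [] := by rintro rfl; simp at r2
    refine ⟨q ++ r, ?_, ?_, ?_, ?_, ?_⟩
    · rw [pa_append]
      refine ⟨q1, r1, ?_, ?_⟩
      · intro v hv hv2
        refine pd a (by simp) ?_
        have h1 := r5 v hv2
        rw [q4 v hv, hx] at h1
        exact h1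
      · intro u hu v hv
        rw [q3] at hu
        rw [r2] at hv
        simp only [Option.mem_def, Option.some.injEq] at hu hv
        rw [← hu, ← hv]; exact hxy
    · rw [List.head?_append_of_ne_nil _ hqne, q2]
    · rw [List.getLast?_append_of_ne_nil _ hrne, r3]
    · rw [List.length_append]
      have : 0 < q.length := List.length_pos_iff.mpr hqne
      simp only [List.length_cons]
      omega
    · intro v hv
      rw [List.mem_append] at hv
      rcases hv with hv | hv
      · rw [q4 v hv, hx]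
        simp
      · exact List.mem_cons_of_mem _ (r5 v hv)

theorem main : Pool.Agent.N393.C13.S_lift := by
  intro V E _ _ _ s t S π hF l hl
  obtain ⟨h1, h2, h3⟩ := hl
  rcases l with _ | ⟨a, l⟩
  · simp at h2
  · obtain ⟨c, hc⟩ : ∃ c, (a :: l).getLast? = some c := by
      rw [List.getLast?_cons]; exact ⟨_, rfl⟩
    have hca := h3 c (by rw [hc]; rfl) a (by simp)
    obtain ⟨y, x, hy, hx, hyx⟩ := adj hca
    obtain ⟨q, q1, q2, q3, q4, _⟩ := lift_path hF l a c h1 hc x hx y hy
    refine ⟨q, ⟨q1, ?_, ?_⟩, by simpa using q4⟩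
    · simp only [List.length_cons] at h2; omega
    · intro u hu v hv
      rw [q3] at hu
      rw [q2] at hv
      simp only [Option.mem_def, Option.some.injEq] at hu hv
      rw [← hu, ← hv]; exact hyx

end Pool.Agent.N393.C13.Lft
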