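import Pool.Agent.N393.C13.Stm
import Pool.Agent.R145.Cir.Ham2

set_option autoImplicit false

/-! # Two disjoint paths between two disjoint circuits -/

namespace Pool.Agent.N393.C13.Two

open Pool.Agent.R145.Cir Pool.Agent.N393.C13

/-- vertices of circuits are not isolated -/
theorem nbr {V : Type} {G : SimpleGraph V} {L : List V} (hL : Ci G L) {z : V} (hz : z ∈ L) :
    ∃ z', G.Adj z z' := by
  obtain ⟨A, B, rfl⟩ := List.append_of_mem hz
  obtain ⟨hp, hl, hj⟩ := hL
  rcases B with _ | ⟨b, B⟩
  · rcases A with _ | ⟨a, A⟩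
    · simp at hl
    · exact ⟨a, hj z (by rw [List.getLast?_append_of_ne_nil _ (by simp)]; simp) a (by simp)⟩
  · have h1 := (pa_append.1 hp).2.1.2
    rw [List.isChain_cons_cons] at h1
    exact ⟨b, h1.1⟩

theorem main : S_two := by
  classical
  intro W _ H hB Z Z' hZ hZ' hd
  obtain ⟨P, hP, hPd⟩ := Pool.Agent.H135R2.Menger.menger_paths (HH H Z Z')
    (x := Sum.inr false) (y := Sum.inr true) (by simp) (fun h => h) 2 (by
      intro P S hx hy hxS hyS hst
      by_contra hcard
      let T : Finset W := Finset.univ.filter (fun w => Sum.inl w ∈ S)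
      have hT : T.card ≤ 1 := by
        have : T.card ≤ S.card := by
          refine Finset.card_le_card_of_injOn Sum.inl ?_ (Sum.inl_injective.injOn)
          intro w hw
          exact (Finset.mem_filter.mp hw).2
        omega
      have mT : ∀ w, w ∈ T ↔ Sum.inl w ∈ S := fun w => by simp [T]
      obtain ⟨z0, hz0⟩ : ∃ z, z ∈ Z := by
        have := hZ.2.1
        exact List.exists_mem_of_length_pos (by omega)
      have : Nonempty W := ⟨z0⟩
      obtain ⟨v, hv⟩ := Finset.card_le_one_iff_subset_singleton.1 hT
      have pick : ∀ L : List W, Ci H L → ∃ w ∈ L, w ≠ v := by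
        intro L hL
        by_contra hcon
        push Not at hcon
        have h1 : L.toFinset ⊆ {v} := fun w hw => by
          rw [Finset.mem_singleton]
          exact hcon w (List.mem_toFinset.mp hw)
        have h2 := Finset.card_le_card h1
        rw [List.toFinset_card_of_nodup hL.1.1, Finset.card_singleton] at h2
        have := hL.2.1
        omega
      obtain ⟨z1, hz1, hz1v⟩ := pick Z hZ
      obtain ⟨z2, hz2, hz2v⟩ := pick Z' hZ'
      have nT : ∀ w, w ≠ v → w ∉ T := fun w hw hwT => hw (Finset.mem_singleton.1 (hv hwT))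
      have hz1P : Sum.inl z1 ∈ P := by
        by_contra hcon
        exact nT z1 hz1v ((mT z1).mpr (hst _ _ hx hcon hz1))
      have hz2P : Sum.inl z2 ∉ P := fun hcon => hyS (hst _ _ hcon hy hz2)
      obtain ⟨z1', hz1'⟩ := nbr hZ hz1
      obtain ⟨z2', hz2'⟩ := nbr hZ' hz2
      obtain ⟨c, d, hcd, hc, hd', _, hdv⟩ := hB v (fun x => Sum.inl x ∈ P) z1 z1' z2 z2' hz1' hz2'
        hz1v hz2v hz1P hz2P
      have hbS : Sum.inl d ∈ S := hst _ _ hc hd' hcd
      exact nT d hdv ((mT d).mpr hbS))
  -- the lists
  have key : ∀ i, ∃ (a b : W) (I : List W), Br H Z Z' a b I ∧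
      ∀ x ∈ [a] ++ (I ++ [b]), Sum.inl x ∈ (P i).support := by
    intro i
    have hnd := (hP i).support_nodup
    have hch := (P i).isChain_adj_support
    obtain ⟨L, hL⟩ : ∃ L, (P i).support = Sum.inr false :: L := by
      cases h : P i with
      | cons h p => exact ⟨_, rfl⟩
    have hlast : (P i).support.getLast? = some (Sum.inr true) := by
      rw [List.getLast?_eq_getLast_of_ne_nil (SimpleGraph.Walk.support_ne_nil _),
        SimpleGraph.Walk.getLast_support]
    rw [hL] at hnd hch hlast
    have hLne : L ≠ [] := by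
      rintro rfl
      simp at hlast
    obtain ⟨M, c, rfl⟩ : ∃ M c, L = M ++ [c] := by
      rcases List.eq_nil_or_concat L with h | ⟨M, c, h⟩
      · exact absurd h hLne
      · exact ⟨M, c, by rw [h, List.concat_eq_append]⟩
    have hc : c = Sum.inr true := by
      have e : Sum.inr false :: (M ++ [c]) = (Sum.inr false :: M) ++ [c] := by simp
      rw [e, List.getLast?_append_of_ne_nil _ (by simp)] at hlast
      simpa using hlast
    subst hc
    obtain ⟨M0, rfl⟩ := unmap M (by
      intro x hx
      rcases x with w | b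
      · exact ⟨w, rfl⟩
      · exfalso
        rw [List.nodup_cons, List.nodup_append] at hnd
        rcases b with _ | _
        · exact hnd.1 (List.mem_append_left _ hx)
        · exact hnd.2.2.2 _ hx _ (by simp) rfl)
    have hM0 : M0 ≠ [] := by
      rintro rfl
      simp only [List.map_nil, List.nil_append, List.isChain_cons_cons] at hch
      exact hch.1
    obtain ⟨a, M1, rfl⟩ := List.exists_cons_of_ne_nil hM0
    have hsup : ∀ x ∈ a :: M1, Sum.inl x ∈ (P i).support := by
      intro x hx
      rw [hL]
      exact List.mem_cons_of_mem _ (List.mem_append_left _ (List.mem_map_of_mem hx))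
    have haZ : a ∈ Z := by
      simp only [List.map_cons, List.cons_append, List.isChain_cons_cons] at hch
      exact hch.1
    have hpa : Pa H (a :: M1) := by
      rw [List.nodup_cons, List.nodup_append] at hnd
      refine ⟨(List.nodup_map_iff Sum.inl_injective).mp hnd.2.1, ?_⟩
      have e : (Sum.inr false : W ⊕ Bool) :: (List.map Sum.inl (a :: M1) ++ [Sum.inr true]) =
        [Sum.inr false] ++ (List.map Sum.inl (a :: M1) ++ [Sum.inr true]) := rfl
      rw [e, List.isChain_append, List.isChain_append] at hch
      have h2 := hch.2.1.1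
      rw [List.isChain_map] at h2
      exact h2
    obtain ⟨y, hy⟩ : ∃ y, (a :: M1).getLast? = some y := by
      rw [List.getLast?_cons]; exact ⟨_, rfl⟩
    have hyZ : y ∈ Z' := by
      have e : (Sum.inr false : W ⊕ Bool) :: (List.map Sum.inl (a :: M1) ++ [Sum.inr true]) =
        [Sum.inr false] ++ (List.map Sum.inl (a :: M1) ++ [Sum.inr true]) := rfl
      rw [e, List.isChain_append, List.isChain_append] at hch
      exact hch.2.1.2.2 (Sum.inl y) (by rw [List.getLast?_map, hy]; rfl) (Sum.inr true) (by simp)
    have hM1 : M1 ≠ [] := by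
      rintro rfl
      simp only [List.getLast?_singleton, Option.some.injEq] at hy
      exact hd a haZ (hy ▸ hyZ)
    obtain ⟨a', b', I', h1, h2⟩ := trim (G := H) (Z := Z) (Z' := Z') M1 a [] (by simpa using hpa)
      haZ (by simp) ⟨y, by
        have : a :: M1 = [a] ++ M1 := rfl
        rw [this, List.getLast?_append_of_ne_nil _ hM1] at hy
        exact hy, hyZ⟩ hd
    exact ⟨a', b', I', h1, fun x hx => hsup x (by simpa using h2 x hx)⟩
  choose a b I h1 h2 using key
  refine ⟨a 0, b 0, a 1, b 1, I 0, I 1, h1 0, h1 1, ?_⟩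
  intro x hx hx'
  rcases hPd 0 1 (by decide) (Sum.inl x) (h2 0 x hx) (h2 1 x hx') with h3 | h3
  · exact absurd h3 (by simp)
  · exact absurd h3 (by simp)

end Pool.Agent.N393.C13.Two
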