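import Pool.Agent.N393.C13.Ports
import Pool.Agent.N393.C13.Two
import Pool.Agent.N393.C13.Count
import Pool.Agent.N393.C13.Edge
import Pool.Agent.N393.C13.Con2
import Pool.Agent.N393.C13.Lft

set_option autoImplicit false

/-!
# The five parts of the proof (helper711, helper645, helper27, helper749, helper306)
-/

namespace Pool.Agent.N393.C13

theorem leaves : Leaves := ⟨Two.main, Count.main, Edge.main, Con.main, Lft.main⟩

end Pool.Agent.N393.C13
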