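import Pool.Agent.N393.C13.Paths

set_option autoImplicit false

/-!
# Paths outside of a longest circuit with at most thirteen vertices have at most two vertices
-/

namespace Pool.Agent.N393.C13

open Pool.Agent.R145.Cir Pool.Agent.N393.Nine

variable {V : Type} {G : SimpleGraph V} {K : List V}

theorem ix_inj {a b : V} {i : ℕ} (h1 : K[i]? = some a) (h2 : K[i]? = some b) : a = b := by
  rw [h1] at h2
  exact Option.some.inj h2

/-- both ends of a longest path have two neighbours on the circuit -/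
theorem Hp.claim3 (h : Hp G K) {w0 : V} {Q : List V} (hQ : LQ G K (w0 :: Q)) (hne : Q ≠ []) :
    ∃ a ∈ K, ∃ b ∈ K, a ≠ b ∧ G.Adj w0 a ∧ G.Adj w0 b := by
  obtain ⟨w1, Q, rfl⟩ := List.exists_cons_of_ne_nil hne
  obtain ⟨a, ha, hwa⟩ := h.end1 hQ (by simp) w0 (by simp)
  by_contra hcon
  have huniq : ∀ b ∈ K, G.Adj w0 b → b = a := by
    intro b hb hwb
    by_contra hba
    exact hcon ⟨a, ha, b, hb, fun e => hba e.symm, hwa, hwb⟩
  have hw01 : G.Adj w0 w1 := by
    have := hQ.pa.2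
    rw [List.isChain_cons_cons] at this
    exact this.1
  obtain ⟨u, hu, huw, hua⟩ := h.third (z := a) hw01
  have huQ : u ∈ Q := by
    rcases hQ.head hu with h1 | h1
    · exact absurd (huniq u h1 hu) hua
    · rw [List.mem_cons] at h1
      exact h1.resolve_left huw
  obtain ⟨Q1, Q2, rfl, hQ1⟩ := hQ.back h.g hu huQ
  have e1 : w0 :: w1 :: (Q1 ++ u :: Q2) = (w0 :: w1 :: Q1) ++ u :: Q2 := by simp
  by_cases h6 : 6 ≤ ((w0 :: w1 :: Q1) ++ u :: Q2).length
  · rw [e1] at hQ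
    -- the other end
    obtain ⟨wd, hwd⟩ : ∃ wd, (u :: Q2).getLast? = some wd := by
      rw [List.getLast?_cons]; exact ⟨_, rfl⟩
    have hlast : ((w0 :: w1 :: Q1) ++ u :: Q2).getLast? = some wd := by
      rw [List.getLast?_append_of_ne_nil _ (by simp), hwd]
    obtain ⟨b', hb', hwb'⟩ := h.end1 hQ.reverse (by rw [List.length_reverse]; omega) wd (by
      rw [List.head?_reverse, hlast]; rfl)
    have hab' : a = b' := h.long ha hb' hQ.pa h6 hQ.dis (k := w0) (k' := wd) rfl hlast hwa hwb'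
    have hR := LQ.rot hQ hu
    obtain ⟨y, hy⟩ : ∃ y, (w1 :: Q1).getLast? = some y := by
      rw [List.getLast?_cons]; exact ⟨_, rfl⟩
    have hy2 : (w0 :: w1 :: Q1).getLast? = some y := by
      rw [← hy]; simp [List.getLast?_cons]
    have hyh : ((w0 :: w1 :: Q1).reverse ++ u :: Q2).head? = some y := by
      rw [List.head?_append_of_ne_nil _ (by simp), List.head?_reverse, hy2]
    have hlR : 6 ≤ ((w0 :: w1 :: Q1).reverse ++ u :: Q2).length := by
      simp only [List.length_append, List.length_reverse] at h6 ⊢; exact h6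
    have hlastR : ((w0 :: w1 :: Q1).reverse ++ u :: Q2).getLast? = some wd := by
      rw [List.getLast?_append_of_ne_nil _ (by simp), hwd]
    obtain ⟨b, hb, hyb⟩ := h.end1 hR (by omega) y (by rw [hyh]; rfl)
    have hbb' : b = b' := h.long hb hb' hR.pa hlR hR.dis hyh hlastR hyb hwb'
    have hpa := hQ.pa
    rw [pa_append] at hpa
    obtain ⟨p1, _, _, p4⟩ := hpa
    have hyu : G.Adj y u := p4 y (by rw [hy2]; rfl) u (by simp)
    have hw0y : w0 ≠ y := by
      rintro rfl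
      have h1 : w0 ∈ w1 :: Q1 := List.mem_of_getLast? hy
      have h2 := p1.1
      rw [List.nodup_cons] at h2
      exact h2.1 h1
    have hya : G.Adj y a := by rw [hab', ← hbb']; exact hyb
    exact h.g.sq w0 u y a hw0y hua hu hyu.symm hya hwa.symm
  · have hl : Q1.length = 2 ∧ Q2 = [] := by
      rw [← List.length_eq_zero_iff]
      simp only [List.length_append, List.length_cons] at h6
      omega
    obtain ⟨hl1, rfl⟩ := hl
    obtain ⟨w2, w3, rfl⟩ := List.length_eq_two.mp hl1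
    have hch := hQ.pa.2
    have hnd := hQ.pa.1
    have hdis := hQ.dis
    simp only [List.cons_append, List.nil_append] at hch hnd hdis
    simp only [List.isChain_cons_cons] at hch
    obtain ⟨c01, c12, c23, c34, _⟩ := hch
    simp only [List.nodup_cons, List.mem_cons, List.mem_nil_iff, or_false, not_or,
      List.nodup_nil, and_true, not_false_eq_true] at hnd
    obtain ⟨⟨n01, n02, n03, n04⟩, ⟨n12, n13, n14⟩, ⟨n23, n24⟩, n34⟩ := hnd
    have hlQ : ∀ Q', Pa G Q' → (∀ x ∈ Q', x ∉ K) → Q'.length ≤ 5 := by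
      intro Q' q1 q2
      have := hQ.max Q' q1 q2
      simpa using this
    have d0 := hdis w0 (by simp)
    have d1 := hdis w1 (by simp)
    have d2 := hdis w2 (by simp)
    have d3 := hdis w3 (by simp)
    have d4 := hdis u (by simp)
    have five : ∀ x0 x1 x2 x3 x4 : V, x0 ∉ K → x1 ∉ K → x2 ∉ K → x3 ∉ K → x4 ∉ K →
        ∀ x ∈ [x0, x1, x2, x3, x4], x ∉ K := by
      intro x0 x1 x2 x3 x4 y0 y1 y2 y3 y4 x hx
      simp only [List.mem_cons, List.mem_nil_iff, or_false] at hx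
      rcases hx with rfl | rfl | rfl | rfl | rfl <;> assumption
    have nod : ∀ x0 x1 x2 x3 x4 : V, x0 ≠ x1 → x0 ≠ x2 → x0 ≠ x3 → x0 ≠ x4 → x1 ≠ x2 → x1 ≠ x3 →
        x1 ≠ x4 → x2 ≠ x3 → x2 ≠ x4 → x3 ≠ x4 → [x0, x1, x2, x3, x4].Nodup := by
      intro x0 x1 x2 x3 x4 y1 y2 y3 y4 y5 y6 y7 y8 y9 y10
      simp only [List.nodup_cons, List.mem_cons, List.mem_nil_iff, or_false, not_or,
        List.nodup_nil, and_true, not_false_eq_true]
      exact ⟨⟨y1, y2, y3, y4⟩, ⟨y5, y6, y7⟩, ⟨y8, y9⟩, y10⟩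
    have chn : ∀ x0 x1 x2 x3 x4 : V, G.Adj x0 x1 → G.Adj x1 x2 → G.Adj x2 x3 → G.Adj x3 x4 →
        [x0, x1, x2, x3, x4].IsChain G.Adj := by
      intro x0 x1 x2 x3 x4 y1 y2 y3 y4
      simp only [List.isChain_cons_cons]
      exact ⟨y1, y2, y3, y4, List.isChain_singleton _⟩
    have R1 : LQ G K [w1, w2, w3, u, w0] := by
      refine ⟨⟨nod _ _ _ _ _ n12 n13 n14 (Ne.symm n01) n23 n24 (Ne.symm n02) n34 (Ne.symm n03)
        (Ne.symm n04), chn _ _ _ _ _ c12 c23 c34 hu.symm⟩, five _ _ _ _ _ d1 d2 d3 d4 d0, ?_⟩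
      intro Q' q1 q2
      exact hlQ Q' q1 q2
    have R2 : LQ G K [w2, w3, u, w0, w1] := by
      refine ⟨⟨nod _ _ _ _ _ n23 n24 (Ne.symm n02) (Ne.symm n12) n34 (Ne.symm n03) (Ne.symm n13)
        (Ne.symm n04) (Ne.symm n14) n01, chn _ _ _ _ _ c23 c34 hu.symm c01⟩,
        five _ _ _ _ _ d2 d3 d4 d0 d1, ?_⟩
      intro Q' q1 q2
      exact hlQ Q' q1 q2
    obtain ⟨a1, ha1, wa1⟩ := h.end1 R1 (by simp) w1 (by simp)
    obtain ⟨a2, ha2, wa2⟩ := h.end1 R2 (by simp) w2 (by simp)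
    obtain ⟨i0, hi0⟩ := ix ha
    obtain ⟨i1, hi1⟩ := ix ha1
    obtain ⟨i2, hi2⟩ := ix ha2
    have E1 := h.ear hi0 hi1 (q := [w0, u, w3, w2, w1]) ⟨nod _ _ _ _ _ n04 n03 n02 n01
      (Ne.symm n34) (Ne.symm n24) (Ne.symm n14) (Ne.symm n23) (Ne.symm n13) (Ne.symm n12),
      chn _ _ _ _ _ hu c34.symm c23.symm c12.symm⟩ (five _ _ _ _ _ d0 d4 d3 d2 d1) rfl rfl hwa wa1
    have E2 := h.ear hi1 hi2 (q := [w1, w0, u, w3, w2]) ⟨nod _ _ _ _ _ (Ne.symm n01) n14 n13 n12
      n04 n03 n02 (Ne.symm n34) (Ne.symm n24) (Ne.symm n23),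
      chn _ _ _ _ _ c01.symm hu c34.symm c23.symm⟩ (five _ _ _ _ _ d1 d0 d4 d3 d2) rfl rfl wa1 wa2
    have E3 := h.ear hi0 hi2 (q := [w0, u, w3, w2]) ⟨by
      have := nod w1 w0 u w3 w2 (Ne.symm n01) n14 n13 n12
        n04 n03 n02 (Ne.symm n34) (Ne.symm n24) (Ne.symm n23)
      rw [List.nodup_cons] at this
      exact this.2, by
      simp only [List.isChain_cons_cons]
      exact ⟨hu, c34.symm, c23.symm, List.isChain_singleton _⟩⟩ (by
      intro x hx
      refine five _ _ _ _ _ d1 d0 d4 d3 d2 x (List.mem_cons_of_mem _ hx)) rfl rfl hwa wa2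
    have t1 : i0 ≠ i1 := by
      rintro rfl
      have := ix_inj hi0 hi1
      subst this
      exact h.g.tri w0 w1 a c01 wa1 hwa.symm
    have t2 : i1 ≠ i2 := by
      rintro rfl
      have := ix_inj hi1 hi2
      subst this
      exact h.g.tri w1 w2 a1 c12 wa2 wa1.symm
    have t3 : i0 ≠ i2 := by
      rintro rfl
      have := ix_inj hi0 hi2
      subst this
      exact h.g.sq w0 w1 w2 a n02 (fun e => d1 (e ▸ ha)) c01 c12 wa2 hwa.symm
    have hc := h.c13
    simp only [List.length_cons, List.length_nil] at E1 E2 E3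
    unfold far at E1 E2 E3
    omega

/-- longest paths outside of the circuit have at most two vertices -/
theorem Hp.claim4 (h : Hp G K) {Q : List V} (hQ : LQ G K Q) (h3 : 3 ≤ Q.length) : False := by
  have c := h.c13
  -- the two ends
  have hends : ∀ w z : V, Q.head? = some w → Q.getLast? = some z →
      ∃ a1 ∈ K, ∃ a2 ∈ K, ∃ b1 ∈ K, ∃ b2 ∈ K, a1 ≠ a2 ∧ b1 ≠ b2 ∧ G.Adj w a1 ∧ G.Adj w a2 ∧
        G.Adj z b1 ∧ G.Adj z b2 := by
    intro w z hw hz
    have key : ∀ (Q : List V) (w : V), LQ G K Q → 2 ≤ Q.length → Q.head? = some w →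
        ∃ a ∈ K, ∃ b ∈ K, a ≠ b ∧ G.Adj w a ∧ G.Adj w b := by
      intro Q w hQ h2 hw
      rcases Q with _ | ⟨x, Q⟩
      · simp at h2
      · simp only [List.head?_cons, Option.some.injEq] at hw
        subst hw
        exact h.claim3 hQ (by rintro rfl; simp at h2)
    obtain ⟨a1, m1, a2, m2, n1, k1, k2⟩ := key Q w hQ (by omega) hw
    obtain ⟨b1, m3, b2, m4, n2, k3, k4⟩ := key Q.reverse z hQ.reverse
      (by rw [List.length_reverse]; omega) (by rw [List.head?_reverse]; exact hz)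
    exact ⟨a1, m1, a2, m2, b1, m3, b2, m4, n1, n2, k1, k2, k3, k4⟩
  obtain ⟨w, hw⟩ : ∃ w, Q.head? = some w := by
    rcases Q with _ | ⟨x, Q⟩
    · simp at h3
    · exact ⟨x, rfl⟩
  obtain ⟨z, hz⟩ : ∃ z, Q.getLast? = some z := by
    rcases Q with _ | ⟨x, Q⟩
    · simp at h3
    · rw [List.getLast?_cons]; exact ⟨_, rfl⟩
  obtain ⟨a1, ha1, a2, ha2, b1, hb1, b2, hb2, na, nb, k1, k2, k3, k4⟩ := hends w z hw hz
  obtain ⟨i1, hi1⟩ := ix ha1
  obtain ⟨i2, hi2⟩ := ix ha2
  obtain ⟨j1, hj1⟩ := ix hb1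
  obtain ⟨j2, hj2⟩ := ix hb2
  have mw : w ∉ K := hQ.dis w (List.mem_of_head? hw)
  have mz : z ∉ K := hQ.dis z (List.mem_of_getLast? hz)
  have f12 := h.lc.nbr_far h.g hi1 hi2 na mw k1 k2
  have f34 := h.lc.nbr_far h.g hj1 hj2 nb mz k3 k4
  have E11 := h.ear hi1 hj1 hQ.pa hQ.dis hw hz k1 k3
  have E12 := h.ear hi1 hj2 hQ.pa hQ.dis hw hz k1 k4
  have E21 := h.ear hi2 hj1 hQ.pa hQ.dis hw hz k2 k3
  have E22 := h.ear hi2 hj2 hQ.pa hQ.dis hw hz k2 k4
  have hwz : w ≠ z := by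
    rintro rfl
    have hnd := hQ.pa.1
    rcases Q with _ | ⟨x, _ | ⟨y, Q⟩⟩
    · simp at h3
    · simp at h3
    · simp only [List.head?_cons, Option.some.injEq] at hw
      subst hw
      rw [List.nodup_cons] at hnd
      apply hnd.1
      have : x :: y :: Q = [x] ++ (y :: Q) := rfl
      rw [this, List.getLast?_append_of_ne_nil _ (by simp)] at hz
      exact List.mem_of_getLast? hz
  -- not both feet are common
  have s1 : ¬ (i1 = j1 ∧ i2 = j2) := by
    rintro ⟨rfl, rfl⟩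
    have e1 := ix_inj hi1 hj1
    have e2 := ix_inj hi2 hj2
    subst e1 e2
    exact h.g.sq w a1 z a2 hwz na k1 k3.symm k4 k2.symm
  have s2 : ¬ (i1 = j2 ∧ i2 = j1) := by
    rintro ⟨rfl, rfl⟩
    have e1 := ix_inj hi1 hj2
    have e2 := ix_inj hi2 hj1
    subst e1 e2
    exact h.g.sq w a1 z a2 hwz na k1 k4.symm k3 k2.symm
  by_cases h4 : Q.length = 3
  · -- three vertices: no common feet
    obtain ⟨w0, w1, w2, rfl⟩ := List.length_eq_three.mp h4
    simp only [List.head?_cons, Option.some.injEq] at hw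
    subst hw
    have hz' : w2 = z := by simpa using hz
    subst hz'
    have hadj := hQ.pa.2
    simp only [List.isChain_cons_cons] at hadj
    have m1 := hQ.dis w1 (by simp)
    have nn : ∀ {i j : ℕ} {a b : V}, K[i]? = some a → K[j]? = some b → G.Adj w0 a → G.Adj w2 b →
        i ≠ j := by
      rintro i j a b hi hj h5 h6 rfl
      have := ix_inj hi hj
      subst this
      exact h.g.sq w0 w1 w2 a hwz (fun e => m1 (e ▸ mem_ix hi)) hadj.1 hadj.2.1 h6 h5.symm
    have q11 := nn hi1 hj1 k1 k3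
    have q12 := nn hi1 hj2 k1 k4
    have q21 := nn hi2 hj1 k2 k3
    have q22 := nn hi2 hj2 k2 k4
    rw [h4] at E11 E12 E21 E22
    unfold far at f12 f34 E11 E12 E21 E22
    omega
  · have h5 : 4 ≤ Q.length := by omega
    have g : ∀ {i j : ℕ}, i = j ∨ far K.length i j Q.length → i = j ∨ far K.length i j 4 := by
      intro i j hij
      rcases hij with e | e
      · exact Or.inl e
      · right
        unfold far at e ⊢
        omega
    have E11 := g E11
    have E12 := g E12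
    have E21 := g E21
    have E22 := g E22
    have l1 := idx_lt hi1
    have l2 := idx_lt hi2
    have l3 := idx_lt hj1
    have l4 := idx_lt hj2
    unfold far at f12 f34 E11 E12 E21 E22
    omega

/-- the ends of an edge outside of the circuit have two neighbours on the circuit -/
theorem Hp.edge [Finite V] (h : Hp G K) {x y : V} (hx : x ∉ K) (hy : y ∉ K) (hxy : G.Adj x y) :
    ∃ a ∈ K, ∃ b ∈ K, a ≠ b ∧ G.Adj x a ∧ G.Adj x b := by
  have hp : Pa G [x, y] := pa_cons (pa_single y) (by simpa using hxy.ne) (jo_single.mpr hxy)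
  have hd : ∀ z ∈ [x, y], z ∉ K := by
    intro z hz
    simp only [List.mem_cons, List.mem_nil_iff, or_false] at hz
    rcases hz with rfl | rfl
    · exact hx
    · exact hy
  obtain ⟨Q, hQ, hl⟩ := exists_LQ (G := G) K [x, y] hp hd
  have h2 : Q.length ≤ 2 := by
    by_contra hcon
    exact h.claim4 hQ (by omega)
  have hxyQ : LQ G K [x, y] := ⟨hp, hd, fun Q' a b => (hQ.max Q' a b).trans h2⟩
  exact h.claim3 hxyQ (by simp)

end Pool.Agent.N393.C13
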