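import Pool.Agent.R145.Cir.Ham

set_option autoImplicit false

/-!
# Circumference at most thirteen: edges outside of a longest circuit
-/

namespace Pool.Agent.N393.C13

open Pool.Agent.R145.Cir

/-- C5: there are no edges outside of a longest circuit: here it is known that the ends of such an
edge have two neighbours on the circuit -/
def S_edge : Prop := ∀ (V : Type) (G : SimpleGraph V), Gi G → (∀ K, LC G K → K.length ≤ 13) →
  (∀ K, LC G K → ∀ x y, x ∉ K → y ∉ K → G.Adj x y →
    ∃ a ∈ K, ∃ b ∈ K, a ≠ b ∧ G.Adj x a ∧ G.Adj x b) →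
  ∀ K, LC G K → ∀ x y, x ∉ K → y ∉ K → ¬ G.Adj x y

end Pool.Agent.N393.C13
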