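import Pool.Agent.N393.C13.Stm
import Pool.Agent.N393.C13.Stm2
import Pool.Agent.N393.C13.Ends

set_option autoImplicit false

/-!
# Graphs of girth five without circuits longer than thirteen
-/

namespace Pool.Agent.N393.C13

open Pool.Agent.R145.Cir Pool.Agent.R890.FF Pool.Agent.R140.PK Pool.Agent.TH362.TF

section
variable {V : Type} {G : SimpleGraph V}

theorem exists_ci [Finite V] (hd : ∀ x y, G.Adj x y → ∃ a b c, a ≠ b ∧ b ≠ c ∧ a ≠ c ∧ G.Adj x a ∧
    G.Adj x b ∧ G.Adj x c) {x y : V} (hxy : G.Adj x y) : ∃ l, Ci G l := by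
  obtain ⟨Q, hQ, hl⟩ := exists_LQ (G := G) [] [x, y] (pa_cons (pa_single y)
    (by simpa using hxy.ne) (jo_single.mpr hxy)) (by simp)
  rcases Q with _ | ⟨w0, _ | ⟨w1, Q⟩⟩
  · simp at hl
  · simp at hl
  have hw01 : G.Adj w0 w1 := by
    have := hQ.pa.2
    rw [List.isChain_cons_cons] at this
    exact this.1
  obtain ⟨a, b, c, n12, n23, n13, a1, a2, a3⟩ := hd w0 w1 hw01
  obtain ⟨u, hu, hu1⟩ : ∃ u, G.Adj w0 u ∧ u ≠ w1 := by
    by_cases h1 : a = w1
    · exact ⟨b, a2, fun e => n12 (h1.trans e.symm)⟩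
    · exact ⟨a, a1, h1⟩
  have huQ : u ∈ Q := by
    rcases hQ.head hu with h1 | h1
    · simp at h1
    · rw [List.mem_cons] at h1
      exact h1.resolve_left hu1
  obtain ⟨A, B, rfl⟩ := List.append_of_mem huQ
  have hpa := hQ.pa
  have e1 : w0 :: w1 :: (A ++ u :: B) = (w0 :: w1 :: (A ++ [u])) ++ B := by simp
  rw [e1, pa_append (m := B)] at hpa
  refine ⟨w0 :: w1 :: (A ++ [u]), hpa.1, by simp, ?_⟩
  intro x hx y hy
  simp only [List.head?_cons, Option.mem_def, Option.some.injEq] at hy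
  have e2 : w0 :: w1 :: (A ++ [u]) = (w0 :: w1 :: A) ++ [u] := by simp
  rw [e2, List.getLast?_append_of_ne_nil _ (by simp)] at hx
  simp only [List.getLast?_singleton, Option.mem_def, Option.some.injEq] at hx
  rw [← hx, ← hy]
  exact hu.symm

theorem exists_LC {c : ℕ} (hc : ∀ l, Ci G l → l.length ≤ c) (h : ∃ l, Ci G l) :
    ∃ K, LC G K := by
  classical
  let p : ℕ → Prop := fun n => ∃ l, Ci G l ∧ l.length = n
  obtain ⟨l, hl⟩ := h
  have hp : p (Nat.findGreatest p c) :=
    Nat.findGreatest_spec (m := l.length) (hc l hl) ⟨l, hl, rfl⟩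
  obtain ⟨K, q1, q2⟩ := hp
  refine ⟨K, q1, fun l' h' => ?_⟩
  rw [q2]
  exact Nat.le_findGreatest (hc l' h') ⟨l', h', rfl⟩

theorem core [Fintype V] (two : S_two) (count : S_count) (edge : S_edge) (hg : Gi G)
    (hd : ∀ x y, G.Adj x y → ∃ a b c, a ≠ b ∧ b ≠ c ∧ a ≠ c ∧ G.Adj x a ∧ G.Adj x b ∧ G.Adj x c)
    (hcon : Con2 G) (hc : ∀ l, Ci G l → l.length ≤ 13) (T : Finset V) (hT : 18 ≤ T.card)
    (hT' : ∀ v ∈ T, ∃ w, G.Adj v w) : False := by
  classical
  obtain ⟨v, hv⟩ : T.Nonempty := Finset.card_pos.mp (by omega)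
  obtain ⟨w, hvw⟩ := hT' v hv
  obtain ⟨K, hK⟩ := exists_LC hc (exists_ci hd hvw)
  have hp : ∀ K, LC G K → Hp G K := fun K hK => ⟨hK, hg, hc K hK.ci, hd,
    fun Z hZ hZK => two V G hcon Z K hZ hK.ci hZK⟩
  have hno := edge V G hg (fun K hK => hc K hK.ci)
    (fun K hK x y hx hy hxy => (hp K hK).edge hx hy hxy) K hK
  have h5 : 5 ≤ (T \ K.toFinset).card := by
    have h1 := Finset.le_card_sdiff K.toFinset T
    have h2 := List.toFinset_card_le K
    have h3 := hc K hK.ci
    omega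
  obtain ⟨f⟩ : Nonempty (Fin 5 ↪ {x // x ∈ T \ K.toFinset}) := by
    apply Function.Embedding.nonempty_of_card_le
    rw [Fintype.card_fin, Fintype.card_coe]
    exact h5
  have hf : ∀ i, (f i).1 ∈ T ∧ (f i).1 ∉ K := by
    intro i
    have := (f i).2
    rw [Finset.mem_sdiff, List.mem_toFinset] at this
    exact this
  have hnb : ∀ i, ∃ g : Fin 3 → V, Function.Injective g ∧ (∀ j, g j ∈ K) ∧
      ∀ j, G.Adj (f i).1 (g j) := by
    intro i
    obtain ⟨w, hw⟩ := hT' _ (hf i).1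
    obtain ⟨a, b, c, n12, n23, n13, a1, a2, a3⟩ := hd _ w hw
    have hKm : ∀ z, G.Adj (f i).1 z → z ∈ K := by
      intro z hz
      by_contra hcon
      exact hno _ z (hf i).2 hcon hz
    refine ⟨![a, b, c], ?_, ?_, ?_⟩
    · intro j j' hjj
      fin_cases j <;> fin_cases j' <;> simp_all
    · intro j
      fin_cases j
      · exact hKm a a1
      · exact hKm b a2
      · exact hKm c a3
    · intro j
      fin_cases j
      · exact a1
      · exact a2
      · exact a3
  choose g g1 g2 g3 using hnb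
  exact count V G K hK hg (hc K hK.ci) (fun i => (f i).1) g
    (fun i j hij => f.injective (Subtype.ext hij)) (fun i => (hf i).2) g1 g2 g3

end

section
variable {V E : Type} [Fintype V] [DecidableEq V] [DecidableEq E]

/-- graphs without isthmus and without circuits longer than thirteen -/
theorem main13 (two : S_two) (count : S_count) (edge : S_edge) (con : S_con2) (lift : S_lift)
    (s t : E → V) (S : Finset E) (hn : N1 s t S)
    (hc : ∀ l, Ci (nbG s t S) l → l.length ≤ 13) : NZ s t S ∨ PQ s t S := by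
  classical
  by_contra hno
  rw [not_or] at hno
  obtain ⟨π, hπ, hM⟩ := exists_Mc s t S hn hno.1 hno.2
  have hnb : ∀ y ∈ odd (fun e => π (s e)) (fun e => π (t e)) S,
      ∃ z, Nb (fun e => π (s e)) (fun e => π (t e)) S y z := by
    intro y hy
    rw [hM.odd_nb y] at hy
    have h1 : 0 < (Finset.univ.filter
      (Nb (fun e => π (s e)) (fun e => π (t e)) S y)).card := by omega
    obtain ⟨z, hz⟩ := Finset.card_pos.1 h1
    exact ⟨z, (Finset.mem_filter.1 hz).2⟩
  refine core (G := nbG (fun e => π (s e)) (fun e => π (t e)) S) two count edge ⟨?_, ?_⟩ ?_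
    (con _ _ _ _ _ hM) ?_ _ hM.odd18 hnb
  · intro x y z h1 h2 h3
    exact hM.tri h1 h2 h3
  · intro x y z w h1 h2 h3 h4 h5 h6
    exact hM.four h1 h2 h3 h4 h5 h6
  · intro x y hxy
    have h1 : 0 < (Finset.univ.filter
        (Nb (fun e => π (s e)) (fun e => π (t e)) S x)).card :=
      Finset.card_pos.2 ⟨y, Finset.mem_filter.2 ⟨Finset.mem_univ _, hxy⟩⟩
    have h2 := hM.nb_ne_one x
    have h3 := hM.nb_ne_two x
    have h4 : 2 < (Finset.univ.filter
        (Nb (fun e => π (s e)) (fun e => π (t e)) S x)).card := by omega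
    obtain ⟨a, ha, b, hb, c, hc', n1, n2, n3⟩ := Finset.two_lt_card.mp h4
    exact ⟨a, b, c, n1, n3, n2, (Finset.mem_filter.1 ha).2, (Finset.mem_filter.1 hb).2,
      (Finset.mem_filter.1 hc').2⟩
  · intro l hl
    obtain ⟨l', hl', hle⟩ := lift V E s t S π hπ l hl
    exact hle.trans (hc l' hl')

end

end Pool.Agent.N393.C13
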