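import Pool.Agent.N393.C13.Core
import Pool.Agent.R140.PK.Cover
import Pool.Agent.R140.PK.Or

set_option autoImplicit false

/-!
# Multigraphs without circuits longer than thirteen
-/

namespace Pool.Agent.N393.C13

open Finset Pool.Agent.R145.Cir Pool.Agent.R890.FF Pool.Agent.R140.PK Pool.Agent.TH362.TF
  Pool.Agent

/-- the five parts of the proof -/
def Leaves : Prop := S_two ∧ S_count ∧ S_edge ∧ S_con2 ∧ S_lift

/-- no circuits longer than thirteen -/
def NoLong {V E : Type} [Fintype V] [DecidableEq V] [Fintype E] [DecidableEq E] (s t : E → V) :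
    Prop := ∀ l, Ci (nbG s t univ) l → l.length ≤ 13

section
variable {V E : Type} [Fintype V] [DecidableEq V] [Fintype E] [DecidableEq E]

theorem NoLong.of {s t : E → V} (h : ∀ n, 13 < n → ∀ v : ℕ → V,
    ¬ ((∀ i < n, ∀ j < n, v i = v j → i = j) ∧ ∀ i < n, ∃ e,
      (s e = v i ∧ t e = v ((i + 1) % n)) ∨ (s e = v ((i + 1) % n) ∧ t e = v i))) :
    NoLong s t := by
  intro l hl
  by_contra hcon
  push Not at hcon
  have hpos : 0 < l.length := by omega
  refine h l.length hcon (fun i => l.getD i (l[0]'hpos)) ⟨?_, ?_⟩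
  · intro i hi j hj hij
    simp only [List.getD_eq_getElem?_getD, List.getElem?_eq_getElem hi,
      List.getElem?_eq_getElem hj, Option.getD_some] at hij
    exact (List.Nodup.getElem_inj_iff hl.1.1).mp hij
  · intro i hi
    have hj : (i + 1) % l.length < l.length := Nat.mod_lt _ hpos
    simp only [List.getD_eq_getElem?_getD, List.getElem?_eq_getElem hi,
      List.getElem?_eq_getElem hj, Option.getD_some]
    have h1 := adj_ix hl (List.getElem?_eq_getElem hi)
      (List.getElem?_eq_getElem hj) (by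
      unfold Ai
      rcases Nat.lt_or_ge (i + 1) l.length with h | h
      · left; exact Nat.mod_eq_of_lt h
      · right; right; left
        have : i + 1 = l.length := by omega
        exact ⟨this, by rw [this, Nat.mod_self]⟩)
    obtain ⟨_, e, _, he⟩ := h1
    refine ⟨e, ?_⟩
    rcases he with ⟨h3, h4⟩ | ⟨h3, h4⟩
    · exact Or.inl ⟨h3, h4⟩
    · exact Or.inr ⟨h3, h4⟩

theorem NoLong.map {s t : E → V} (H : Leaves) {π : V → V} (hπ : FC s t univ π)
    (h : NoLong s t) : NoLong (fun e => π (s e)) (fun e => π (t e)) := by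
  intro l hl
  obtain ⟨l', hl', hle⟩ := H.2.2.2.2 V E s t univ π hπ l hl
  exact hle.trans (h l' hl')

theorem flow13 (H : Leaves) (s t : E → V) (hn : N1 s t univ) (hc : NoLong s t) :
    NZ s t univ ∨ PQ s t univ :=
  main13 H.1 H.2.1 H.2.2.1 H.2.2.2.1 H.2.2.2.2 s t univ hn hc

theorem cov13 (H : Leaves) (s t : E → V) (hn : N1 s t univ) (hc : NoLong s t) : Cov s t := by
  classical
  by_contra hcon
  obtain ⟨π, hπ, hM⟩ := exists_MinP Cov s t hn hcon
  rcases flow13 H (fun e => π (s e)) (fun e => π (t e)) hM.n1 (hc.map H hπ) with h1 | h1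
  · exact hM.np (cov_of_nz h1)
  · obtain ⟨κ, c, hc⟩ := hM.pet h1 (fun A1 A2 a1 a2 b1 b2 b3 b4 b5 b6 b7 =>
      cov_sum A1 A2 a1 a2 b1 b2 b3 b4 b5 b6 b7)
    obtain ⟨h2, h3⟩ := hc.conn
    exact hM.np (cov_pet hc (hM.mn _ _ (mem_image_of_mem _ (mem_univ _)) h2 h3))

theorem fv13 (H : Leaves) (s t : E → V) (hn : N1 s t univ) (hc : NoLong s t) : Fv s t := by
  classical
  by_contra hcon
  obtain ⟨π, hπ, hM⟩ := exists_MinP Fv s t hn hcon
  rcases flow13 H (fun e => π (s e)) (fun e => π (t e)) hM.n1 (hc.map H hπ) with h1 | h1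
  · exact hM.np (fv_of_nz h1)
  · obtain ⟨κ, c, hc⟩ := hM.pet h1 (fun A1 A2 a1 a2 b1 b2 b3 b4 b5 b6 b7 =>
      fv_sum A1 A2 a1 a2 b1 b2 b3 b4 b5 b6 b7)
    obtain ⟨h2, h3⟩ := hc.conn
    exact hM.np (fv_pet hc (hM.mn _ _ (mem_image_of_mem _ (mem_univ _)) h2 h3))

end

/-- the simple graph version -/
theorem simple13 (H : Leaves) {V : Type} [Fintype V] (G : SimpleGraph V)
    (hb : ∀ u v : V, G.Adj u v → (G.deleteEdges {s(u, v)}).Reachable u v)
    (hp : ∀ n, 13 < n → ∀ v : ℕ → V,
      ¬ ((∀ i < n, ∀ j < n, v i = v j → i = j) ∧ ∀ i < n, G.Adj (v i) (v ((i + 1) % n)))) :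
    ∃ (E : Type) (_ : Fintype E) (_ : DecidableEq V) (K : H160R2.HF.OrGraph V E),
      H23.PS.IsOrientation G K ∧ H23.PS.FiveClasses K := by
  classical
  have hpr : ∀ e : G.edgeSet, ∃ a : V × V, e.1 = s(a.1, a.2) := by
    rintro ⟨e, he⟩
    induction e with
    | _ a b => exact ⟨(a, b), rfl⟩
  choose pr hpr using hpr
  have hadj : ∀ e : G.edgeSet, G.Adj (pr e).1 (pr e).2 := by
    intro e
    have h1 := e.2
    rw [hpr e, SimpleGraph.mem_edgeSet] at h1
    exact h1
  have hex : ∀ u v, G.Adj u v → ∃ e : G.edgeSet, e.1 = s(u, v) := fun u v h =>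
    ⟨⟨s(u, v), h⟩, rfl⟩
  have hends : ∀ (e : G.edgeSet) (u v : V), e.1 = s(u, v) ↔
      (((pr e).1 = u ∧ (pr e).2 = v) ∨ ((pr e).2 = u ∧ (pr e).1 = v)) := by
    intro e u v
    rw [hpr e, Sym2.eq_iff]
    tauto
  refine ⟨G.edgeSet, inferInstance, inferInstance, ⟨fun e => (pr e).1, fun e => (pr e).2⟩,
    ⟨hadj, ?_⟩, ?_⟩
  · intro u v huv
    obtain ⟨e, he⟩ := hex u v huv
    refine ⟨e, (hends e u v).1 he, ?_⟩
    intro e' he'
    apply Subtype.ext
    rw [he]
    exact (hends e' u v).2 he'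
  · rw [← fv_iff]
    refine fv13 H _ _ ?_ ?_
    · intro x hx
      obtain ⟨e, he⟩ := card_eq_one.1 hx
      have hmem : e ∈ cut (fun e => (pr e).1) (fun e => (pr e).2) univ x := by
        rw [he]; exact mem_singleton_self e
      have h1 : x (pr e).1 ≠ x (pr e).2 := (mem_filter.1 hmem).2
      apply h1
      have key : ∀ a b, (G.deleteEdges {s((pr e).1, (pr e).2)}).Reachable a b → x a = x b := by
        rintro a b ⟨w⟩
        induction w with
        | nil => rfl
        | cons hadj' _ ih =>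
          rename_i a' b' c'
          refine Eq.trans ?_ ih
          rw [SimpleGraph.deleteEdges_adj] at hadj'
          obtain ⟨e', he'⟩ := hex _ _ hadj'.1
          by_contra hne
          have h2 : e' ∈ cut (fun e => (pr e).1) (fun e => (pr e).2) univ x := by
            refine mem_filter.2 ⟨mem_univ _, ?_⟩
            rcases (hends e' _ _).1 he' with ⟨h3, h4⟩ | ⟨h3, h4⟩
            · show x (pr e').1 ≠ x (pr e').2
              rw [h3, h4]; exact hne
            · show x (pr e').1 ≠ x (pr e').2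
              rw [h3, h4]; exact Ne.symm hne
          rw [he, mem_singleton] at h2
          apply hadj'.2
          rw [Set.mem_singleton_iff, ← hpr e, ← he', h2]
      exact key _ _ (hb _ _ (hadj e))
    · refine NoLong.of ?_
      rintro n hn v ⟨h1, h2⟩
      refine hp n hn v ⟨h1, fun i hi => ?_⟩
      obtain ⟨e, he⟩ := h2 i hi
      have h5 := hadj e
      rcases he with ⟨h3, h4⟩ | ⟨h3, h4⟩
      · rw [h3, h4] at h5
        exact h5
      · rw [h3, h4] at h5
        exact h5.symm

end Pool.Agent.N393.C13
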