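import Pool.Agent.R129.Hfp.Main
import Pool.Agent.R140.PK.Cover
import Pool.Agent.N393.C13.Ports

/-!
# `1/2`-flow-pairs in classes of graphs which are closed under contractions of connected sets
-/

set_option autoImplicit false
set_option linter.unusedSectionVars false

namespace Pool.Agent.N393.C13.Hf

open Finset Relation Pool.Agent.H160R2.HF Pool.Agent.H179R3.HF Pool.Agent.TH499.NF
open Pool.Agent.R129.Hfp Pool.Agent.R140.PK
open Pool.Agent.TH362.TF (nb padj IsPQ PQ Joins N1 NZ cut)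

variable {V E : Type} [Fintype V] [Fintype E] [DecidableEq V] [DecidableEq E]

/-- there is a `1/2`-flow-pair, and the values at a vertex of degree three are arbitrary -/
def Hp (s t : E → V) : Prop := (∃ φ₂ φ₄ : E → ℤ, (⟨s, t⟩ : OrGraph V E).IsHalfFlowPair φ₂ φ₄) ∧
  ∀ w, FlexAt (⟨s, t⟩ : OrGraph V E) w

theorem hp_of_nz {s t : E → V} (hn : N1 s t univ) (h : NZ s t univ) : Hp s t := by
  have h1 : NzK (⟨s, t⟩ : OrGraph V E) := by
    obtain ⟨φ, h1, h2⟩ := h
    refine ⟨φ, fun e => h1 e (mem_univ _), fun x => ?_⟩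
    rw [bd_eq]
    exact h2 x
  have hb : ∀ X : Finset V, ((⟨s, t⟩ : OrGraph V E).cut X).card ≠ 1 := by
    intro X h2
    apply hn (fun v => decide (v ∈ X))
    rw [← h2]
    congr 1
    ext e
    rw [mem_cut]
    unfold Pool.Agent.TH362.TF.cut
    rw [mem_filter]
    by_cases h3 : s e ∈ X <;> by_cases h4 : t e ∈ X <;> simp [h3, h4]
  exact ⟨pair_of_nz hb h1, fun w => flex_of_nz h1 w⟩

theorem ctr_iff {A : Finset V} {a : V} (ha : a ∈ A) (s : E → V) (e : E) :
    ctr A a s e = a ↔ s e ∈ A := by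
  unfold ctr
  split_ifs with h
  · exact ⟨fun _ => h, fun _ => rfl⟩
  · exact ⟨fun h' => absurd (h' ▸ ha) h, fun h' => absurd h' h⟩

theorem ctr_out {A : Finset V} {a w : V} (ha : a ∈ A) (hw : w ∉ A) (s : E → V) (e : E) :
    ctr A a s e = w ↔ s e = w := by
  unfold ctr
  split_ifs with h
  · exact ⟨fun h' => absurd (h' ▸ ha) hw, fun h' => absurd (h' ▸ h) hw⟩
  · exact Iff.rfl

theorem cut_in {A : Finset V} {a : V} (ha : a ∈ A) (s t : E → V) :
    (⟨ctr A a s, ctr A a t⟩ : OrGraph V E).cut {a} = cu s t A := by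
  ext e
  rw [mem_cut, mem_cu, mem_singleton, mem_singleton]
  change ¬ (ctr A a s e = a ↔ ctr A a t e = a) ↔ _
  rw [ctr_iff ha, ctr_iff ha]

theorem cut_out {A : Finset V} {a w : V} (ha : a ∈ A) (hw : w ∉ A) (s t : E → V) :
    (⟨ctr A a s, ctr A a t⟩ : OrGraph V E).cut {w} = (⟨s, t⟩ : OrGraph V E).cut {w} := by
  ext e
  rw [mem_cut, mem_cut, mem_singleton, mem_singleton, mem_singleton, mem_singleton]
  change ¬ (ctr A a s e = w ↔ ctr A a t e = w) ↔ _
  rw [ctr_out ha hw, ctr_out ha hw]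

/-- sums along cuts with three edges: a pair for one side and arbitrary values for the other -/
theorem glue2 {s t : E → V} {A1 A2 : Finset V} {a1 a2 : V} (h1 : a1 ∈ A1) (h2 : a2 ∈ A2)
    (hd : Disjoint A1 A2) (h3 : (cu s t A1).card = 3) (hc : cu s t A2 = cu s t A1) {x₂ x₄ : E → ℤ}
    (hx : (⟨ctr A1 a1 s, ctr A1 a1 t⟩ : OrGraph V E).IsHalfFlowPair x₂ x₄)
    (hF : FlexAt (⟨ctr A2 a2 s, ctr A2 a2 t⟩ : OrGraph V E) a2) :
    ∃ φ₂ φ₄ : E → ℤ, (⟨s, t⟩ : OrGraph V E).IsHalfFlowPair φ₂ φ₄ ∧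
      ∀ e, ¬ (s e ∈ A1 ∧ t e ∈ A1) → φ₂ e = x₂ e ∧ φ₄ e = x₄ e := by
  classical
  obtain ⟨p1, p2, p3⟩ := (pair_iff_ok _ _ _).1 hx
  have hsum : ∀ x : E → ℤ, (⟨ctr A1 a1 s, ctr A1 a1 t⟩ : OrGraph V E).IsFlow x →
      ∑ e ∈ (⟨ctr A2 a2 s, ctr A2 a2 t⟩ : OrGraph V E).cut {a2},
        (if ctr A2 a2 s e = a2 then x e else - x e) = 0 := by
    intro x hxf
    have h4 := net_cut hxf a1
    rw [cut_in h1] at h4
    rw [cut_in h2, hc, ← neg_eq_zero, ← sum_neg_distrib, ← h4]
    refine sum_congr rfl fun e he => ?_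
    have he2 := he
    rw [← hc, mem_cu] at he2
    rw [mem_cu] at he
    change _ = if ctr A1 a1 s e = a1 then x e else - x e
    have d1 : s e ∈ A1 → s e ∉ A2 := fun h h' => disjoint_left.1 hd h h'
    have d2 : t e ∈ A1 → t e ∉ A2 := fun h h' => disjoint_left.1 hd h h'
    by_cases h5 : s e ∈ A2
    · rw [if_pos ((ctr_iff h2 s e).2 h5), if_neg (fun h => d1 ((ctr_iff h1 s e).1 h) h5)]
    · rw [if_neg (fun h => h5 ((ctr_iff h2 s e).1 h)), neg_neg,
        if_pos ((ctr_iff h1 s e).2 (by tauto))]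
  obtain ⟨y₂, y₄, hy, hyx⟩ := hF (by rw [cut_in h2, hc]; exact h3) x₂ x₄ (hsum x₂ p1) (hsum x₄ p2)
    (fun e _ => p3 e)
  rw [cut_in h2, hc] at hyx
  obtain ⟨q1, q2, q3⟩ := (pair_iff_ok _ _ _).1 hy
  have hfl : ∀ x y : E → ℤ, (⟨ctr A1 a1 s, ctr A1 a1 t⟩ : OrGraph V E).IsFlow x →
      (⟨ctr A2 a2 s, ctr A2 a2 t⟩ : OrGraph V E).IsFlow y → (∀ e ∈ cu s t A1, y e = x e) →
      (⟨s, t⟩ : OrGraph V E).IsFlow (fun e => if s e ∈ A1 ∧ t e ∈ A1 then y e else x e) := by
    intro x y hxf hyf hxy v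
    by_cases hv : v ∈ A1
    · have hv2 : v ∉ A2 := fun h => disjoint_left.1 hd hv h
      have h5 := hyf v
      have e1 : univ.filter (fun e => ctr A2 a2 s e = v) = univ.filter (fun e => s e = v) :=
        filter_congr fun e _ => ctr_out h2 hv2 s e
      have e2 : univ.filter (fun e => ctr A2 a2 t e = v) = univ.filter (fun e => t e = v) :=
        filter_congr fun e _ => ctr_out h2 hv2 t e
      change ∑ e ∈ univ.filter (fun e => ctr A2 a2 s e = v), y e =
        ∑ e ∈ univ.filter (fun e => ctr A2 a2 t e = v), y e at h5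
      rw [e1, e2] at h5
      refine Eq.trans (sum_congr rfl fun e he => ?_) (h5.trans (sum_congr rfl fun e he => ?_))
      · have h6 : s e = v := (mem_filter.1 he).2
        by_cases h7 : t e ∈ A1
        · exact if_pos ⟨by rw [h6]; exact hv, h7⟩
        · refine (if_neg (fun h => h7 h.2)).trans (hxy e ?_).symm
          rw [mem_cu, h6]
          exact fun h => h7 (h.1 hv)
      · have h6 : t e = v := (mem_filter.1 he).2
        by_cases h7 : s e ∈ A1
        · exact (if_pos ⟨h7, by rw [h6]; exact hv⟩).symm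
        · refine Eq.trans (hxy e ?_) (if_neg (fun h => h7 h.1)).symm
          rw [mem_cu, h6]
          exact fun h => h7 (h.2 hv)
    · have h5 := hxf v
      have e1 : univ.filter (fun e => ctr A1 a1 s e = v) = univ.filter (fun e => s e = v) :=
        filter_congr fun e _ => ctr_out h1 hv s e
      have e2 : univ.filter (fun e => ctr A1 a1 t e = v) = univ.filter (fun e => t e = v) :=
        filter_congr fun e _ => ctr_out h1 hv t e
      change ∑ e ∈ univ.filter (fun e => ctr A1 a1 s e = v), x e =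
        ∑ e ∈ univ.filter (fun e => ctr A1 a1 t e = v), x e at h5
      rw [e1, e2] at h5
      refine Eq.trans (sum_congr rfl fun e he => ?_) (h5.trans (sum_congr rfl fun e he => ?_))
      · have h6 : s e = v := (mem_filter.1 he).2
        exact if_neg (fun h => hv (h6 ▸ h.1))
      · have h6 : t e = v := (mem_filter.1 he).2
        exact (if_neg (fun h => hv (h6 ▸ h.2))).symm
  refine ⟨fun e => if s e ∈ A1 ∧ t e ∈ A1 then y₂ e else x₂ e,
    fun e => if s e ∈ A1 ∧ t e ∈ A1 then y₄ e else x₄ e, ?_, ?_⟩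
  · rw [pair_iff_ok]
    refine ⟨hfl x₂ y₂ p1 q1 fun e he => (hyx e he).1, hfl x₄ y₄ p2 q2 fun e he => (hyx e he).2,
      fun e => ?_⟩
    by_cases h : s e ∈ A1 ∧ t e ∈ A1
    · simp only [if_pos h]
      exact q3 e
    · simp only [if_neg h]
      exact p3 e
  · intro e he
    exact ⟨if_neg he, if_neg he⟩

theorem flex_side {s t : E → V} {A1 A2 : Finset V} {a1 a2 : V} (h1 : a1 ∈ A1) (h2 : a2 ∈ A2)
    (hd : Disjoint A1 A2) (h3 : (cu s t A1).card = 3) (hc : cu s t A2 = cu s t A1)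
    (c1 : Hp (ctr A1 a1 s) (ctr A1 a1 t)) (c2 : Hp (ctr A2 a2 s) (ctr A2 a2 t)) {w : V}
    (hw : w ∉ A1) : FlexAt (⟨s, t⟩ : OrGraph V E) w := by
  intro h4 α β hα hβ hok
  have hcw := cut_out h1 hw s t
  have hs : ∀ γ : E → ℤ, ∑ e ∈ (⟨ctr A1 a1 s, ctr A1 a1 t⟩ : OrGraph V E).cut {w},
      (if ctr A1 a1 s e = w then γ e else - γ e) =
      ∑ e ∈ (⟨s, t⟩ : OrGraph V E).cut {w}, (if s e = w then γ e else - γ e) := by
    intro γ
    rw [hcw]
    refine sum_congr rfl fun e _ => ?_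
    have h5 := ctr_out h1 hw s e
    by_cases h6 : s e = w
    · rw [if_pos h6, if_pos (h5.2 h6)]
    · rw [if_neg h6, if_neg (fun h => h6 (h5.1 h))]
  obtain ⟨x₂, x₄, hx, hxv⟩ := c1.2 w (by rw [hcw]; exact h4) α β ((hs α).trans hα)
    ((hs β).trans hβ) (by rw [hcw]; exact hok)
  obtain ⟨φ₂, φ₄, h5, h6⟩ := glue2 h1 h2 hd h3 hc hx (c2.2 a2)
  refine ⟨φ₂, φ₄, h5, fun e he => ?_⟩
  have h7 : ¬ (s e ∈ A1 ∧ t e ∈ A1) := by
    rintro ⟨h8, h9⟩
    rw [mem_cut, mem_singleton, mem_singleton] at he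
    apply he
    constructor
    · intro h10
      exact absurd (h10 ▸ h8) hw
    · intro h10
      exact absurd (h10 ▸ h9) hw
  obtain ⟨h8, h9⟩ := h6 e h7
  obtain ⟨h10, h11⟩ := hxv e (by rw [hcw]; exact he)
  exact ⟨h8.trans h10, h9.trans h11⟩

theorem hp_sum {s t : E → V} (A1 A2 : Finset V) (a1 a2 : V) (h1 : a1 ∈ A1) (h2 : a2 ∈ A2)
    (hd : Disjoint A1 A2) (h3 : (cu s t A1).card = 3) (hc : cu s t A2 = cu s t A1)
    (c1 : Hp (ctr A1 a1 s) (ctr A1 a1 t)) (c2 : Hp (ctr A2 a2 s) (ctr A2 a2 t)) : Hp s t := by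
  constructor
  · obtain ⟨⟨x₂, x₄, hx⟩, _⟩ := c1
    obtain ⟨φ₂, φ₄, h5, _⟩ := glue2 h1 h2 hd h3 hc hx (c2.2 a2)
    exact ⟨φ₂, φ₄, h5⟩
  · intro w
    by_cases hw : w ∈ A1
    · exact flex_side h2 h1 hd.symm (by rw [hc]; exact h3) hc.symm c2 c1
        (fun h => disjoint_left.1 hd hw h)
    · exact flex_side h1 h2 hd h3 hc c1 c2 hw

/-- all edges join the same two vertices -/
theorem flex_two (G : OrGraph V E) {x y : V} (hxy : x ≠ y)
    (h : ∀ e, G.t e ≠ G.h e → (G.t e = x ∧ G.h e = y) ∨ (G.t e = y ∧ G.h e = x)) :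
    FlexAt G x := by
  classical
  intro _ α β hα hβ hok
  have hne : ∀ e ∈ G.cut {x}, G.t e ≠ G.h e := by
    intro e he heq
    rw [mem_cut, heq] at he
    exact he Iff.rfl
  have hmem : ∀ e, G.t e ≠ G.h e → e ∈ G.cut {x} := by
    intro e he
    rw [mem_cut, mem_singleton, mem_singleton]
    rcases h e he with ⟨a, b⟩ | ⟨a, b⟩
    · rw [a, b]; exact fun h' => hxy (h'.1 rfl).symm
    · rw [a, b]; exact fun h' => hxy (h'.2 rfl).symm
  have hfl : ∀ (γ : E → ℤ) (d : ℤ), ∑ e ∈ G.cut {x}, (if G.t e = x then γ e else - γ e) = 0 →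
      G.IsFlow (fun e => if G.t e = G.h e then d else γ e) := by
    intro γ d hγ v
    set g : E → ℤ := fun e => if G.t e = G.h e then d else γ e with hg
    have hgc : ∀ e ∈ G.cut {x}, g e = γ e := fun e he => if_neg (hne e he)
    have h1 := net_star G g v
    have h2 : net G.t G.h g v = 0 := by
      rw [h1]
      by_cases hvx : v = x
      · subst hvx
        rw [← hγ]
        refine sum_congr rfl fun e he => ?_
        rw [hgc e he]
        unfold og
        split_ifs <;> ring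
      · by_cases hvy : v = y
        · subst hvy
          have e1 : G.cut {v} = G.cut {x} := by
            ext e
            constructor
            · intro he
              apply hmem
              intro heq
              rw [mem_cut, heq] at he
              exact he Iff.rfl
            · intro he
              rw [mem_cut, mem_singleton, mem_singleton]
              rcases h e (hne e he) with ⟨a, b⟩ | ⟨a, b⟩
              · rw [a, b]; exact fun h' => hxy (h'.2 rfl)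
              · rw [a, b]; exact fun h' => hxy (h'.1 rfl)
          rw [e1, ← neg_eq_zero, ← sum_neg_distrib, ← hγ]
          refine sum_congr rfl fun e he => ?_
          rw [hgc e he]
          unfold og
          rcases h e (hne e he) with ⟨a, b⟩ | ⟨a, b⟩
          · rw [if_neg (by rw [a]; exact hxy), if_pos a]; ring
          · rw [if_pos a, if_neg (by rw [a]; exact hvx)]; ring
        · refine sum_eq_zero fun e he => ?_
          exfalso
          rw [mem_cut, mem_singleton, mem_singleton] at he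
          apply he
          by_cases heq : G.t e = G.h e
          · rw [heq]
          · rcases h e heq with ⟨a, b⟩ | ⟨a, b⟩
            · rw [a, b]
              exact ⟨fun h' => absurd h'.symm hvx, fun h' => absurd h'.symm hvy⟩
            · rw [a, b]
              exact ⟨fun h' => absurd h'.symm hvy, fun h' => absurd h'.symm hvx⟩
    unfold net at h2
    exact sub_eq_zero.1 h2
  refine ⟨fun e => if G.t e = G.h e then 1 else α e, fun e => if G.t e = G.h e then 0 else β e,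
    ?_, fun e he => ⟨if_neg (hne e he), if_neg (hne e he)⟩⟩
  rw [pair_iff_ok]
  refine ⟨hfl α 1 hα, hfl β 0 hβ, fun e => ?_⟩
  by_cases heq : G.t e = G.h e
  · simp only [if_pos heq]
    refine ⟨by norm_num, by norm_num, fun h0 => absurd h0 (by norm_num)⟩
  · simp only [if_neg heq]
    exact hok e (hmem e heq)

/-- rotation of the Petersen graph -/
theorem rot {s t : E → V} {κ : V → Fin 10} {c : Fin 10 → V} (h : PetComp s t κ c) (k : Fin 10) :
    PetComp s t (fun v => tau k (κ v)) (fun l => c (sig k l)) := by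
  have hiff : ∀ l x, tau k x = l ↔ x = sig k l := by
    intro l x
    constructor
    · rintro rfl
      rw [sig_tau]
    · rintro rfl
      rw [tau_sig]
  refine ⟨isPQ_tau (G := ⟨s, t⟩) h.pq k, fun l => ?_, fun e l he => ?_, fun e l he => ?_,
    fun e l he => ?_⟩
  · change tau k (κ (c (sig k l))) = l
    rw [h.kc, tau_sig]
  · obtain ⟨m, hm⟩ := h.cl e _ he
    exact ⟨tau k m, by rw [sig_tau]; exact hm⟩
  · obtain ⟨m, hm⟩ := h.cl' e _ he
    exact ⟨tau k m, by rw [sig_tau]; exact hm⟩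
  · exact h.lv e (sig k l) (fun h' => he (by rw [hiff, hiff]; exact h'))

/-- nine of the ten vertices -/
def nine (c : Fin 10 → V) : Finset V := (univ.filter (fun k : Fin 10 => k ≠ 0)).image c

theorem mem_nine {c : Fin 10 → V} {v : V} : v ∈ nine c ↔ ∃ k, k ≠ 0 ∧ c k = v := by
  unfold nine
  rw [mem_image]
  constructor
  · rintro ⟨k, hk, h⟩
    exact ⟨k, (mem_filter.1 hk).2, h⟩
  · rintro ⟨k, hk, h⟩
    exact ⟨k, mem_filter.2 ⟨mem_univ _, hk⟩, h⟩

theorem conn9 {s t : E → V} {κ : V → Fin 10} {c : Fin 10 → V} (h : PetComp s t κ c) :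
    ConnS s t univ (fun v => v ∈ nine c) ∧ ∃ e, s e ≠ t e ∧ s e ∈ nine c ∧ t e ∈ nine c := by
  have hm : ∀ k, k ≠ 0 → c k ∈ nine c := fun k hk => mem_nine.2 ⟨k, hk, rfl⟩
  have hadj : ∀ k l, padj k l = true → ∃ e, Pool.Agent.TH362.TF.Ends s t (c k) (c l) e := by
    intro k l hkl
    obtain ⟨e, _, he⟩ := h.pq.2 k l hkl
    exact ⟨e, h.ends (padj_ne _ _ hkl) he⟩
  have hst : ∀ k l, k ≠ 0 → l ≠ 0 → (k = l ∨ padj k l = true) →
      ReflTransGen (St s t univ (fun v => v ∈ nine c)) (c k) (c l) := by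
    intro k l hk hl hkl
    rcases hkl with rfl | hkl
    · exact ReflTransGen.refl
    · obtain ⟨e, he⟩ := hadj k l hkl
      exact ReflTransGen.single ⟨⟨e, mem_univ _, he⟩, hm k hk, hm l hl⟩
  have key : ∀ k l : Fin 10, k ≠ 0 → l ≠ 0 → ∃ a b : Fin 10, a ≠ 0 ∧ b ≠ 0 ∧
      (k = a ∨ padj k a = true) ∧ (a = b ∨ padj a b = true) ∧ (b = l ∨ padj b l = true) := by
    decide +kernel
  constructor
  · intro x hx y hy
    obtain ⟨k, hk, rfl⟩ := mem_nine.1 hx
    obtain ⟨l, hl, rfl⟩ := mem_nine.1 hy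
    obtain ⟨a, b, ha, hb, h1, h2, h3⟩ := key k l hk hl
    exact ((hst k a hk ha h1).trans (hst a b ha hb h2)).trans (hst b l hb hl h3)
  · obtain ⟨e, he⟩ := hadj 1 2 (by decide)
    have h1 := hm 1 (by decide)
    have h2 := hm 2 (by decide)
    have hne : c 1 ≠ c 2 := fun h' => absurd (h.inj h') (by decide)
    rcases he with ⟨a, b⟩ | ⟨a, b⟩
    · exact ⟨e, by rw [a, b]; exact hne, by rw [a]; exact h1, by rw [b]; exact h2⟩
    · exact ⟨e, by rw [a, b]; exact hne.symm, by rw [a]; exact h2, by rw [b]; exact h1⟩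

theorem mp_ro {s t : E → V} {κ' : V → Fin 10} {c' : Fin 10 → V} (N : Finset V) (a : V)
    (hk9 : ∀ v, κ' v ≠ 0 ↔ v ∈ N) (ha : c' 0 = a) :
    mp (⟨s, t⟩ : OrGraph V E) (ro κ' c' 0) = ⟨ctr N a s, ctr N a t⟩ := by
  have h1 : ∀ v, ro κ' c' 0 v = if v ∈ N then a else v := by
    intro v
    unfold ro
    by_cases h2 : v ∈ N
    · rw [if_neg ((hk9 v).2 h2), if_pos h2, ha]
    · have h3 : κ' v = 0 := by
        by_contra h3
        exact h2 ((hk9 v).1 h3)
      rw [if_pos h3, if_neg h2]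
  unfold mp ctr
  rw [OrGraph.mk.injEq]
  exact ⟨funext fun e => h1 _, funext fun e => h1 _⟩

/-- a Petersen component, with the map given -/
theorem pet1 {s t : E → V} {κ' : V → Fin 10} {c c' : Fin 10 → V}
    (hk' : ∀ k, κ' (c k) = k) (hk9 : ∀ v, κ' v ≠ 0 ↔ v ∈ nine c) (hpq : IsPQ s t univ κ')
    (hne' : ∀ k, κ' (c' k) ≠ k) (a : V) (ha0 : c' 0 = a)
    (hA : Hp (ctr (nine c) a s) (ctr (nine c) a t)) :
    (∃ φ₂ φ₄ : E → ℤ, (⟨s, t⟩ : OrGraph V E).IsHalfFlowPair φ₂ φ₄) ∧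
      ∀ w, w ∉ nine c → FlexAt (⟨s, t⟩ : OrGraph V E) w := by
  classical
  have hsing : ∀ k v, k ≠ 0 → κ' v = k → v = c k := by
    intro k v hk hv
    obtain ⟨l, _, rfl⟩ := mem_nine.1 ((hk9 v).1 (by rw [hv]; exact hk))
    rw [hk'] at hv
    rw [hv]
  have h0 := mp_ro (s := s) (t := t) (nine c) a hk9 ha0
  have hF : ∀ k, FlexAt (mp (⟨s, t⟩ : OrGraph V E) (ro κ' c' k)) (c' k) := by
    intro k
    by_cases hk : k = 0
    · subst hk
      rw [h0]
      exact hA.2 _
    · have hro : ∀ v, ro κ' c' k v = c k ∨ ro κ' c' k v = c' k := by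
        intro v
        unfold ro
        split_ifs with h1
        · exact Or.inl (hsing k v hk h1)
        · exact Or.inr rfl
      refine flex_two _ (y := c k) (fun h1 => hne' k (by rw [h1, hk'])) fun e he => ?_
      change (ro κ' c' k (s e) = c' k ∧ ro κ' c' k (t e) = c k) ∨
        (ro κ' c' k (s e) = c k ∧ ro κ' c' k (t e) = c' k)
      have he' : ro κ' c' k (s e) ≠ ro κ' c' k (t e) := he
      rcases hro (s e) with h1 | h1 <;> rcases hro (t e) with h2 | h2
      · exact absurd (h1.trans h2.symm) he'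
      · exact Or.inr ⟨h1, h2⟩
      · exact Or.inl ⟨h1, h2⟩
      · exact absurd (h1.trans h2.symm) he'
  constructor
  · obtain ⟨⟨a₂, a₄, ha⟩, _⟩ := hA
    rw [← h0] at ha
    obtain ⟨φ₂, φ₄, h1, _⟩ := glueP (G := ⟨s, t⟩) hpq hne' hF ha
    exact ⟨φ₂, φ₄, h1⟩
  · intro w hw9 hw α β hα hβ hok
    have hw0 : κ' w = 0 := by
      by_contra h3
      exact hw9 ((hk9 w).1 h3)
    have hcut := cut_ro' (G := ⟨s, t⟩) hne' hw0
    have hsum : ∀ γ : E → ℤ, ∑ e ∈ (mp (⟨s, t⟩ : OrGraph V E) (ro κ' c' 0)).cut {w},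
        (if (mp (⟨s, t⟩ : OrGraph V E) (ro κ' c' 0)).t e = w then γ e else - γ e) =
        ∑ e ∈ (⟨s, t⟩ : OrGraph V E).cut {w}, (if s e = w then γ e else - γ e) := by
      intro γ
      rw [hcut]
      refine sum_congr rfl fun e _ => ?_
      have h1 : (mp (⟨s, t⟩ : OrGraph V E) (ro κ' c' 0)).t e = w ↔ s e = w :=
        ro_eq hne' hw0 (s e)
      by_cases h2 : s e = w
      · rw [if_pos h2, if_pos (h1.2 h2)]
      · rw [if_neg h2, if_neg (fun h3 => h2 (h1.1 h3))]
    have hA2 := hA.2 w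
    rw [← h0] at hA2
    obtain ⟨a₂, a₄, ha, hav⟩ := hA2 (by rw [hcut]; exact hw) α β
      ((hsum α).trans hα) ((hsum β).trans hβ) (by rw [hcut]; exact hok)
    rw [hcut] at hav
    obtain ⟨φ₂, φ₄, h1, h2⟩ := glueP (G := ⟨s, t⟩) hpq hne' hF ha
    refine ⟨φ₂, φ₄, h1, fun e he => ?_⟩
    have h3 : κ' (s e) = 0 ∨ κ' (t e) = 0 := by
      rw [mem_cut, mem_singleton, mem_singleton] at he
      by_cases h4 : s e = w
      · left; rw [h4]; exact hw0
      · by_cases h5 : t e = w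
        · right; rw [h5]; exact hw0
        · exact absurd ⟨fun h => absurd h h4, fun h => absurd h h5⟩ he
    obtain ⟨h6, h7⟩ := h2 e h3
    obtain ⟨h8, h9⟩ := hav e he
    exact ⟨h6.trans h8, h7.trans h9⟩

/-- the map of a Petersen component, changed to zero off the component -/
def kz (κ : V → Fin 10) (c : Fin 10 → V) (v : V) : Fin 10 :=
  if v ∈ univ.image c then κ v else 0

theorem kz_pos {κ : V → Fin 10} {c : Fin 10 → V} {v : V} (h : v ∈ univ.image c) :
    kz κ c v = κ v := if_pos h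

theorem kz_neg {κ : V → Fin 10} {c : Fin 10 → V} {v : V} (h : v ∉ univ.image c) :
    kz κ c v = 0 := if_neg h

/-- a Petersen component -/
theorem pet0 {s t : E → V} {κ : V → Fin 10} {c : Fin 10 → V} (h : PetComp s t κ c)
    (hA : Hp (ctr (nine c) (c (nb 0 0)) s) (ctr (nine c) (c (nb 0 0)) t)) :
    (∃ φ₂ φ₄ : E → ℤ, (⟨s, t⟩ : OrGraph V E).IsHalfFlowPair φ₂ φ₄) ∧
      ∀ w, w ∉ nine c → FlexAt (⟨s, t⟩ : OrGraph V E) w := by
  classical
  have hCm : ∀ k, c k ∈ univ.image c := fun k => mem_image_of_mem _ (mem_univ _)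
  have hk' : ∀ k, kz κ c (c k) = k := by
    intro k
    rw [kz_pos (hCm k), h.kc]
  have hk9 : ∀ v, kz κ c v ≠ 0 ↔ v ∈ nine c := by
    intro v
    rw [mem_nine]
    constructor
    · intro hv
      by_cases h1 : v ∈ univ.image c
      · obtain ⟨k, _, rfl⟩ := mem_image.1 h1
        rw [hk'] at hv
        exact ⟨k, hv, rfl⟩
      · exact absurd (kz_neg h1) hv
    · rintro ⟨k, hk, rfl⟩
      rw [hk']
      exact hk
  have hcl : ∀ e, s e ∈ univ.image c ↔ t e ∈ univ.image c := by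
    intro e
    rw [mem_image, mem_image]
    constructor
    · rintro ⟨k, _, hk⟩
      obtain ⟨l, hl⟩ := h.cl e k hk.symm
      exact ⟨l, mem_univ _, hl.symm⟩
    · rintro ⟨k, _, hk⟩
      obtain ⟨l, hl⟩ := h.cl' e k hk.symm
      exact ⟨l, mem_univ _, hl.symm⟩
  have hiff : ∀ e l, (kz κ c (s e) = l ↔ kz κ c (t e) = l) ↔ (κ (s e) = l ↔ κ (t e) = l) := by
    intro e l
    by_cases h1 : s e ∈ univ.image c
    · rw [kz_pos h1, kz_pos ((hcl e).1 h1)]
    · have h2 : t e ∉ univ.image c := fun h' => h1 ((hcl e).2 h')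
      rw [kz_neg h1, kz_neg h2]
      refine ⟨fun _ => ?_, fun _ => Iff.rfl⟩
      by_contra hcon
      rcases h.lv e l hcon with h3 | h3
      · exact h1 (by rw [h3]; exact hCm l)
      · exact h2 (by rw [h3]; exact hCm l)
  have hpq : IsPQ s t univ (kz κ c) := by
    refine ⟨fun l => ?_, fun l m hlm => ?_⟩
    · have h1 := h.pq.1 l
      have h2 : cut s t univ (fun v => decide (kz κ c v = l)) =
          cut s t univ (fun v => decide (κ v = l)) := by
        unfold Pool.Agent.TH362.TF.cut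
        refine filter_congr fun e _ => ?_
        rw [ne_eq, ne_eq, decide_eq_decide, decide_eq_decide]
        exact not_congr (hiff e l)
      rw [h2]
      exact h1
    · obtain ⟨e, he, hj⟩ := h.pq.2 l m hlm
      refine ⟨e, he, ?_⟩
      rcases h.ends (padj_ne _ _ hlm) hj with ⟨a, b⟩ | ⟨a, b⟩
      · exact Or.inl ⟨by rw [a]; exact hk' l, by rw [b]; exact hk' m⟩
      · exact Or.inr ⟨by rw [a]; exact hk' m, by rw [b]; exact hk' l⟩
  exact pet1 (c' := fun k => c (nb k 0)) hk' hk9 hpq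
    (fun k h' => nb_ne k 0 ((hk' (nb k 0)).symm.trans h')) (c (nb 0 0)) rfl hA

theorem hp13 (H : Leaves) (s t : E → V) (hn : N1 s t univ) (hc : NoLong s t) : Hp s t := by
  classical
  by_contra hcon
  obtain ⟨π, hπ, hM⟩ := exists_MinP Hp s t hn hcon
  rcases flow13 H (fun e => π (s e)) (fun e => π (t e)) hM.n1 (hc.map H hπ) with h1 | h1
  · exact hM.np (hp_of_nz hM.n1 h1)
  · obtain ⟨κ, c, hc⟩ := hM.pet h1 (fun A1 A2 a1 a2 b1 b2 b3 b4 b5 b6 b7 =>
      hp_sum A1 A2 a1 a2 b1 b2 b3 b4 b5 b6 b7)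
    have hall : ∀ {κ c}, PetComp (fun e => π (s e)) (fun e => π (t e)) κ c →
        Hp (ctr (nine c) (c (nb 0 0)) (fun e => π (s e)))
          (ctr (nine c) (c (nb 0 0)) (fun e => π (t e))) := by
      intro κ c hc
      obtain ⟨h2, h3⟩ := conn9 hc
      exact hM.mn _ _ (mem_nine.2 ⟨nb 0 0, nb_ne 0 0, rfl⟩) h2 h3
    refine hM.np ⟨(pet0 hc (hall hc)).1, fun w => ?_⟩
    by_cases hw : w ∈ nine c
    · obtain ⟨k, _, rfl⟩ := mem_nine.1 hw
      have h4 := rot hc k
      refine (pet0 h4 (hall h4)).2 _ fun h5 => ?_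
      obtain ⟨l, hl, h6⟩ := mem_nine.1 h5
      have h7 := hc.inj h6
      apply hl
      rw [← tau_sig k l, h7, tau_self]
    · exact (pet0 hc (hall hc)).2 w hw

end Pool.Agent.N393.C13.Hf
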