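import Pool.Agent.N393.Nine.Base

set_option autoImplicit false

/-!
# Paths outside of a longest circuit with at most thirteen vertices
-/

namespace Pool.Agent.N393.C13

open Pool.Agent.R145.Cir Pool.Agent.N393.Nine

variable {V : Type} {G : SimpleGraph V} {K : List V}

/-- hypotheses -/
structure Hp (G : SimpleGraph V) (K : List V) : Prop where
  lc : LC G K
  g : Gi G
  c13 : K.length ≤ 13
  d3 : ∀ x y, G.Adj x y → ∃ a b c, a ≠ b ∧ b ≠ c ∧ a ≠ c ∧ G.Adj x a ∧ G.Adj x b ∧ G.Adj x c
  two : ∀ Z, Ci G Z → (∀ x ∈ Z, x ∉ K) → ∃ (a b a' b' : V) (I I' : List V),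
    Br G Z K a b I ∧ Br G Z K a' b' I' ∧ ∀ x ∈ [a] ++ (I ++ [b]), x ∉ [a'] ++ (I' ++ [b'])

/-- a third neighbour -/
theorem Hp.third (h : Hp G K) {x y z : V} (hxy : G.Adj x y) : ∃ w, G.Adj x w ∧ w ≠ y ∧ w ≠ z := by
  obtain ⟨a, b, c, n12, n23, n13, a1, a2, a3⟩ := h.d3 x y hxy
  by_contra hno
  push Not at hno
  have b1 := hno a a1
  have b2 := hno b a2
  have b3 := hno c a3
  by_cases c1 : a = y
  · have c2 : b = z := b2 (fun e => n12 (c1.trans e.symm))
    have c3 : c = z := b3 (fun e => n13 (c1.trans e.symm))
    exact n23 (c2.trans c3.symm)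
  · have c2 : a = z := b1 c1
    have c3 : b = y := by
      by_contra e; exact n12 (c2.trans (b2 e).symm)
    have c4 : c = y := by
      by_contra e; exact n13 (c2.trans (b3 e).symm)
    exact n23 (c3.trans c4.symm)

theorem jo_h {c k : V} {J : List V} (h : J.head? = some k) (hk : G.Adj c k) : Jo G [c] J := by
  intro x hx y hy
  rw [h] at hy
  simp only [List.getLast?_singleton, Option.mem_def, Option.some.injEq] at hx hy
  rw [← hx, ← hy]; exact hk

theorem jo_l {c k : V} {J : List V} (h : J.getLast? = some k) (hk : G.Adj k c) : Jo G J [c] := by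
  intro x hx y hy
  rw [h] at hx
  simp only [List.head?_cons, Option.mem_def, Option.some.injEq] at hx hy
  rw [← hx, ← hy]; exact hk

/-- a path outside of the circuit and the positions of its feet -/
theorem Hp.ear (h : Hp G K) {a b k k' : V} {i j : ℕ} (hi : K[i]? = some a)
    (hj : K[j]? = some b) {q : List V} (hq : Pa G q) (hd : ∀ x ∈ q, x ∉ K)
    (h1 : q.head? = some k) (h2 : q.getLast? = some k') (hk : G.Adj k a) (hk' : G.Adj k' b) :
    i = j ∨ far K.length i j q.length := by
  by_cases hab : a = b
  · left
    subst hab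
    obtain ⟨h3, h4⟩ := List.getElem?_eq_some_iff.mp hi
    obtain ⟨h5, h6⟩ := List.getElem?_eq_some_iff.mp hj
    exact (List.Nodup.getElem_inj_iff h.lc.ci.1.1).mp (h4.trans h6.symm)
  · right
    refine h.lc.ear hi hj hab hq ?_ hd (jo_h h1 hk.symm) (jo_l h2 hk')
    rintro rfl
    simp at h1

theorem Hp.long (h : Hp G K) {a b k k' : V} (ha : a ∈ K) (hb : b ∈ K) {q : List V} (hq : Pa G q)
    (hl : 6 ≤ q.length) (hd : ∀ x ∈ q, x ∉ K) (h1 : q.head? = some k) (h2 : q.getLast? = some k')
    (hk : G.Adj k a) (hk' : G.Adj k' b) : a = b := by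
  obtain ⟨i, hi⟩ := ix ha
  obtain ⟨j, hj⟩ := ix hb
  have hc := h.c13
  rcases h.ear hi hj hq hd h1 h2 hk hk' with e | f
  · rw [e, hj] at hi
    exact (Option.some.inj hi).symm
  · exfalso
    unfold far at f
    omega

/-- the end of a longest path has a neighbour on the circuit -/
theorem Hp.end1 (h : Hp G K) {Q : List V} (hQ : LQ G K Q) (h2 : 2 ≤ Q.length) :
    ∀ w ∈ Q.head?, ∃ a ∈ K, G.Adj w a := by
  classical
  rcases Q with _ | ⟨w0, _ | ⟨w1, Q⟩⟩
  · simp at h2
  · simp at h2
  intro w hw
  simp only [List.head?_cons, Option.mem_def, Option.some.injEq] at hw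
  subst hw
  by_contra hno
  push Not at hno
  have hw01 : G.Adj w0 w1 := by
    have := hQ.pa.2
    rw [List.isChain_cons_cons] at this
    exact this.1
  obtain ⟨u, hu, hu1, _⟩ := h.third (z := w1) hw01
  obtain ⟨u', hu', hu1', huu⟩ := h.third (z := u) hw01
  have inQ : ∀ z, G.Adj w0 z → z ≠ w1 → z ∈ Q := by
    intro z hz hz1
    rcases hQ.head hz with h1 | h1
    · exact absurd hz (hno z h1)
    · rw [List.mem_cons] at h1
      exact h1.resolve_left hz1
  -- the two neighbours in order
  have key : ∀ u u', G.Adj w0 u → G.Adj w0 u' → u ≠ w1 → u' ≠ w1 → u' ≠ u →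
      (∃ A B, Q = A ++ u' :: B ∧ u ∈ A) → False := by
    intro u u' hu hu' hu1 hu1' huu hpos
    obtain ⟨A, B, rfl, huA⟩ := hpos
    -- the circuit
    have hpa := hQ.pa
    have e1 : w0 :: w1 :: (A ++ u' :: B) = (w0 :: w1 :: (A ++ [u'])) ++ B := by simp
    rw [e1, pa_append (m := B)] at hpa
    obtain ⟨hZp, _, _, _⟩ := hpa
    have hmem : ∀ x ∈ w0 :: w1 :: (A ++ [u']), x ∉ K := by
      intro x hx
      apply hQ.dis
      rw [e1]
      exact List.mem_append_left _ hx
    have hZ : Ci G (w0 :: w1 :: (A ++ [u'])) := by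
      refine ⟨hZp, by simp, ?_⟩
      intro x hx y hy
      simp only [List.head?_cons, Option.mem_def, Option.some.injEq] at hy
      have e2 : w0 :: w1 :: (A ++ [u']) = (w0 :: w1 :: A) ++ [u'] := by simp
      rw [e2, List.getLast?_append_of_ne_nil _ (by simp)] at hx
      simp only [List.getLast?_singleton, Option.mem_def, Option.some.injEq] at hx
      rw [← hx, ← hy]
      exact hu'.symm
    -- positions of the two neighbours
    obtain ⟨A1, A2, rfl⟩ := List.append_of_mem huA
    have hA1 : 2 ≤ A1.length := by
      have hQ' := hQ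
      have e3 : (A1 ++ u :: A2) ++ u' :: B = A1 ++ u :: (A2 ++ u' :: B) := by simp
      rw [e3] at hQ'
      obtain ⟨Q1, Q2, e4, h4⟩ := hQ'.back h.g hu (by simp)
      have hnd := hQ'.pa.1
      rw [List.nodup_cons, List.nodup_cons] at hnd
      have hnd2 := hnd.2.2
      have : A1 = Q1 := by
        have hh := List.append_eq_append_iff.mp e4
        rcases hh with ⟨c, hc1, hc2⟩ | ⟨c, hc1, hc2⟩
        · rcases c with _ | ⟨d, c⟩
          · simpa using hc1.symm
          · exfalso
            rw [List.cons_append, List.cons.injEq] at hc2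
            rw [hc1] at e4
            rw [e4, List.nodup_append] at hnd2
            exact hnd2.2.2 u (by rw [← hc2.1]; simp) u (by simp) rfl
        · rcases c with _ | ⟨d, c⟩
          · simpa using hc1
          · exfalso
            rw [List.cons_append, List.cons.injEq] at hc2
            rw [hc1, List.nodup_append] at hnd2
            exact hnd2.2.2 u (by rw [← hc2.1]; simp) u (by simp) rfl
      rw [this]; exact h4
    have hA2 : 2 ≤ A2.length := by
      have hch := hZp.2
      have hnd := hZp.1
      rcases A2 with _ | ⟨v, _ | ⟨v2, A2⟩⟩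
      · exfalso
        have e3 : w0 :: w1 :: ((A1 ++ [u]) ++ [u']) = (w0 :: w1 :: A1) ++ ([u, u']) := by simp
        rw [e3, List.isChain_append] at hch
        have := hch.2.1
        simp only [List.isChain_cons_cons] at this
        exact h.g.tri w0 u u' hu this.1 hu'.symm
      · exfalso
        have e3 : w0 :: w1 :: ((A1 ++ [u, v]) ++ [u']) = (w0 :: w1 :: A1) ++ ([u, v, u']) := by simp
        rw [e3] at hnd
        rw [e3, List.isChain_append] at hch
        have := hch.2.1
        simp only [List.isChain_cons_cons] at this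
        refine h.g.sq w0 u v u' ?_ huu.symm hu this.1 this.2.1 hu'.symm
        rintro rfl
        rw [List.nodup_append] at hnd
        exact hnd.2.2 w0 (by simp) w0 (by simp) rfl
      · simp
    obtain ⟨a, b, a', b', I, I', br, br', hII⟩ := h.two _ hZ hmem
    obtain ⟨s, hs⟩ := ix br.ha
    obtain ⟨t, ht⟩ := ix br'.ha
    obtain ⟨i, hi⟩ := ix br.hb
    obtain ⟨j, hj⟩ := ix br'.hb
    have hst : s ≠ t := by
      rintro rfl
      rw [hs] at ht
      exact hII a (by simp) (by rw [← Option.some.inj ht]; simp)
    have hij : i ≠ j := by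
      rintro rfl
      rw [hi] at hj
      exact hII b (by simp) (by rw [← Option.some.inj hj]; simp)
    obtain ⟨n, c1, d1, _⟩ := ex_n hst (idx_lt hs) (idx_lt ht)
    obtain ⟨m, c2, d2, _⟩ := ex_n hij (idx_lt hi) (idx_lt hj)
    obtain ⟨l, hl, hl2⟩ := twoBrS hZ h.lc.ci hmem br br' hII hs ht hi hj n m c1 c2
    have hle := h.lc.max l hl
    have hc := h.c13
    have hsl := idx_lt hs
    have htl := idx_lt ht
    have hlen : (w0 :: w1 :: ((A1 ++ u :: A2) ++ [u'])).length = A1.length + A2.length + 4 := by
      simp only [List.length_append, List.length_cons, List.length_nil]; omega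
    rw [hlen] at d1 c1 hsl htl
    have hA1' : A1.length = 2 := by omega
    have hA2' : A2.length = 2 := by omega
    have hI : I = [] := List.length_eq_zero_iff.mp (by omega)
    have hI' : I' = [] := List.length_eq_zero_iff.mp (by omega)
    have hn3 : n = 3 := by omega
    subst hI hI' hn3
    obtain ⟨w2, w3, rfl⟩ := List.length_eq_two.mp hA1'
    obtain ⟨w5, w6, rfl⟩ := List.length_eq_two.mp hA2'
    have ab : G.Adj a b := by
      have := br.pa.2
      simpa using this
    have ab' : G.Adj a' b' := by
      have := br'.pa.2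
      simpa using this
    have hnd := hZp.1
    have hch := hZp.2
    simp only [List.cons_append, List.nil_append, List.isChain_cons_cons] at hch
    simp only [List.cons_append, List.nil_append] at hnd hmem hs ht
    have hbb : b ≠ b' := by
      rintro rfl
      exact hII b (by simp) (by simp)
    -- the case distinction
    have fin : ∀ (b b' : V) (P : List V) (k k' : V), b ∈ K → b' ∈ K → P.Nodup →
        P.IsChain G.Adj → 6 ≤ P.length → (∀ x ∈ P, x ∈ [w0, w1, w2, w3, u, w5, w6, u']) →
        P.head? = some k → P.getLast? = some k' → G.Adj k b → G.Adj k' b' → b = b' := by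
      intro b b' P k k' hb hb' p1 p2 p3 p4 p5 p6 p7 p8
      exact h.long hb hb' ⟨p1, p2⟩ p3 (fun x hx => hmem x (p4 x hx)) p5 p6 p7 p8
    have cases3 : ∀ (a b a' b' : V) (s t : ℕ), [w0, w1, w2, w3, u, w5, w6, u'][s]? = some a →
        [w0, w1, w2, w3, u, w5, w6, u'][t]? = some a' → t = s + 4 → b ∈ K → b' ∈ K →
        G.Adj a b → G.Adj a' b' → b = b' := by
      intro a b a' b' s t hs ht hts hb hb' ab ab'
      have hs4 : s < 4 := by
        have := idx_lt ht
        simp at this
        omega
      subst hts
      interval_cases s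
      · simp at hs
        subst hs
        exact absurd ab (hno b hb)
      · simp at hs ht
        subst hs ht
        refine fin b b' [w1, w2, w3, u, w0, u', w6, w5] w1 w5 hb hb' ?_ ?_ (by simp) ?_ rfl rfl ab ab'
        · exact (List.Perm.nodup_iff (by
            refine List.perm_iff_count.mpr ?_
            intro z
            simp only [List.count_cons, List.count_nil]
            omega)).mp hnd
        · simp only [List.isChain_cons_cons]
          exact ⟨hch.2.1, hch.2.2.1, hch.2.2.2.1, hu.symm, hu', hch.2.2.2.2.2.2.1.symm,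
            hch.2.2.2.2.2.1.symm, List.isChain_singleton _⟩
        · intro x hx
          simp only [List.mem_cons, List.mem_nil_iff, or_false] at hx ⊢
          tauto
      · simp at hs ht
        subst hs ht
        refine fin b b' [w2, w3, u, w0, u', w6] w2 w6 hb hb' ?_ ?_ (by simp) ?_ rfl rfl ab ab'
        · have : (w1 :: w5 :: [w2, w3, u, w0, u', w6]).Nodup := (List.Perm.nodup_iff (by
            refine List.perm_iff_count.mpr ?_
            intro z
            simp only [List.count_cons, List.count_nil]
            omega)).mp hnd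
          rw [List.nodup_cons, List.nodup_cons] at this
          exact this.2.2
        · simp only [List.isChain_cons_cons]
          exact ⟨hch.2.2.1, hch.2.2.2.1, hu.symm, hu', hch.2.2.2.2.2.2.1.symm,
            List.isChain_singleton _⟩
        · intro x hx
          simp only [List.mem_cons, List.mem_nil_iff, or_false] at hx ⊢
          tauto
      · simp at hs ht
        subst hs ht
        refine fin b b' [w3, w2, w1, w0, u, w5, w6, u'] w3 u' hb hb' ?_ ?_ (by simp) ?_ rfl rfl
          ab ab'
        · exact (List.Perm.nodup_iff (by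
            refine List.perm_iff_count.mpr ?_
            intro z
            simp only [List.count_cons, List.count_nil]
            omega)).mp hnd
        · simp only [List.isChain_cons_cons]
          exact ⟨hch.2.2.1.symm, hch.2.1.symm, hch.1.symm, hu, hch.2.2.2.2.1, hch.2.2.2.2.2.1,
            hch.2.2.2.2.2.2.1, List.isChain_singleton _⟩
        · intro x hx
          simp only [List.mem_cons, List.mem_nil_iff, or_false] at hx ⊢
          tauto
    have hd4 : t = s + 4 ∨ s = t + 4 := by
      unfold Cd at c1
      omega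
    rcases hd4 with e | e
    · exact hbb (cases3 a b a' b' s t hs ht e br.hb br'.hb ab ab')
    · exact hbb (cases3 a' b' a b t s ht hs e br'.hb br.hb ab' ab).symm
  have m1 := inQ u hu hu1
  have m2 := inQ u' hu' hu1'
  obtain ⟨A, B, hAB⟩ := List.append_of_mem m1
  rw [hAB, List.mem_append, List.mem_cons] at m2
  rcases m2 with m2 | m2 | m2
  · exact key u' u hu' hu hu1' hu1 huu.symm ⟨A, B, hAB, m2⟩
  · exact huu m2
  · obtain ⟨B1, B2, rfl⟩ := List.append_of_mem m2
    exact key u u' hu hu' hu1 hu1' huu ⟨A ++ u :: B1, B2, by rw [hAB]; simp, by simp⟩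

end Pool.Agent.N393.C13
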