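import Pool.Agent.R145.Cir.Ham
import Pool.Agent.R140.PK.Lift

set_option autoImplicit false

/-!
# Circumference at most thirteen: definitions and statements

Lists as paths and circuits: `Pa`, `Jo`, `Ci`, `LC`, `Br`, `Gi` of `Pool.Agent.R145.Cir`.
-/

namespace Pool.Agent.N393.C13

open Pool.Agent.R145.Cir Pool.Agent.R890.FF Pool.Agent.R140.PK

/-- 2-connected, apart from isolated vertices: if the vertex `v` is deleted, then every set of
vertices which separates two vertices that are not isolated is left by an edge -/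
def Con2 {V : Type} (G : SimpleGraph V) : Prop :=
  ∀ (v : V) (P : V → Prop) (x x' y y' : V), G.Adj x x' → G.Adj y y' → x ≠ v → y ≠ v → P x →
    ¬ P y → ∃ c d, G.Adj c d ∧ P c ∧ ¬ P d ∧ c ≠ v ∧ d ≠ v

/-- the simple graph of the multigraph `s t : E → V` with edge set `S` -/
def nbG {V E : Type} [Fintype V] [DecidableEq V] [DecidableEq E] (s t : E → V) (S : Finset E) :
    SimpleGraph V where
  Adj x y := Nb s t S x y
  symm := ⟨fun _ _ h => nb_comm h⟩
  loopless := ⟨fun _ h => h.1 rfl⟩

/-- C1: two disjoint paths between two disjoint circuits -/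
def S_two : Prop := ∀ (V : Type) [Fintype V] (G : SimpleGraph V), Con2 G → ∀ (Z Z' : List V),
  Ci G Z → Ci G Z' → (∀ x ∈ Z, x ∉ Z') →
  ∃ (a b a' b' : V) (I I' : List V), Br G Z Z' a b I ∧ Br G Z Z' a' b' I' ∧
    ∀ x ∈ [a] ++ (I ++ [b]), x ∉ [a'] ++ (I' ++ [b'])

/-- C2: there are no five vertices outside of a longest circuit with at most thirteen vertices which
have three neighbours each on the circuit (girth at least five) -/
def S_count : Prop := ∀ (V : Type) (G : SimpleGraph V) (K : List V), LC G K → Gi G →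
  K.length ≤ 13 → ∀ (x : Fin 5 → V) (f : Fin 5 → Fin 3 → V), Function.Injective x →
  (∀ i, x i ∉ K) → (∀ i, Function.Injective (f i)) → (∀ i j, f i j ∈ K) →
  (∀ i j, G.Adj (x i) (f i j)) → False

/-- C3: minimal contractions without flow are 2-connected -/
def S_con2 : Prop := ∀ (V E : Type) [Fintype V] [DecidableEq V] [DecidableEq E] (s t : E → V)
  (S : Finset E), Mc s t S → Con2 (nbG s t S)

/-- C4: circuits of contractions can be lifted -/
def S_lift : Prop := ∀ (V E : Type) [Fintype V] [DecidableEq V] [DecidableEq E] (s t : E → V)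
  (S : Finset E) (π : V → V), FC s t S π →
  ∀ l, Ci (nbG (fun e => π (s e)) (fun e => π (t e)) S) l →
    ∃ l', Ci (nbG s t S) l' ∧ l.length ≤ l'.length

end Pool.Agent.N393.C13
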